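import Pool.Agent.Work.MP_f0c219_gt_h72.Topo4

/-!
# Topology, part 5: the fundamental group of the glued space
-/

open Set Topology Filter unitInterval
open scoped ComplexConjugate

namespace Pool.Agent.Work.MP_f0c219_gt

/-- Homeomorphisms induce isomorphisms of fundamental groups. -/
theorem fundamentalGroup_homeo {X Y : Type*} [TopologicalSpace X] [TopologicalSpace Y]
    (f : X ≃ₜ Y) (x : X) : Nonempty (FundamentalGroup X x ≃* FundamentalGroup Y (f x)) := by
  let F : C(X, Y) := ⟨f, f.continuous⟩
  refine ⟨MulEquiv.ofBijective (FundamentalGroup.map F x) ⟨?_, ?_⟩⟩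
  · intro p q h
    obtain ⟨p, rfl⟩ := Path.Homotopic.Quotient.mk_surjective p
    obtain ⟨q, rfl⟩ := Path.Homotopic.Quotient.mk_surjective q
    have h1 : Path.Homotopic (p.map f.continuous) (q.map f.continuous) :=
      Path.Homotopic.Quotient.eq.1 h
    have h2 := h1.map ⟨f.symm, f.symm.continuous⟩
    have h3 := h2.pathCast (f.symm_apply_apply x).symm (f.symm_apply_apply x).symm
    apply Path.Homotopic.Quotient.eq.2
    have e1 : (((p.map f.continuous).map f.symm.continuous).cast (f.symm_apply_apply x).symm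
        (f.symm_apply_apply x).symm) = p := by
      ext t
      simp
    have e2 : (((q.map f.continuous).map f.symm.continuous).cast (f.symm_apply_apply x).symm
        (f.symm_apply_apply x).symm) = q := by
      ext t
      simp
    rw [← e1, ← e2]
    exact h3
  · intro q
    obtain ⟨q, rfl⟩ := Path.Homotopic.Quotient.mk_surjective q
    refine ⟨Path.Homotopic.Quotient.mk ((q.map f.symm.continuous).cast
      (f.symm_apply_apply x).symm (f.symm_apply_apply x).symm), ?_⟩
    change Path.Homotopic.Quotient.mk _ = Path.Homotopic.Quotient.mk _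
    congr 1
    ext t
    exact f.apply_symm_apply _

namespace Model

open Borromean GlueSys MulOpposite

variable (e : LatIso)

theorem pathConnectedSpace_Q : PathConnectedSpace (Q.{0, 0, 0, 0, 0, 0} (sys e)) := by
  rw [pathConnectedSpace_iff_univ]
  have h1 : IsPathConnected (range (qX (sys e))) := isPathConnected_range continuous_qX
  have h2 : IsPathConnected (range (qY (sys e))) := isPathConnected_range continuous_qY
  have h3 : range (qX (sys e)) ∪ range (qY (sys e)) = univ := by
    rw [eq_univ_iff_forall]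
    intro m
    rcases tot_cases (triv (sys e)) m with ⟨g, x, rfl⟩ | ⟨g, y, rfl⟩
    · exact Or.inl ⟨x, rfl⟩
    · exact Or.inr ⟨y, rfl⟩
  rw [← h3]
  obtain ⟨x, hx⟩ := isPathConnected_collar.nonempty
  have hx' : x ∈ (sys e).φ.source := hx
  exact h1.union h2 ⟨qX (sys e) x, ⟨x, rfl⟩, ⟨(sys e).φ x, (qX_eq_qY_source (sys e) hx').symm⟩⟩

theorem pathConnectedSpace_space : PathConnectedSpace e.toGluing.Space := by
  have := pathConnectedSpace_Q e
  exact (homeo.{0} e).symm.surjective.pathConnectedSpace (homeo.{0} e).symm.continuous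

/-- **Part T(c).** -/
theorem pi1 : PathConnectedSpace e.toGluing.Space ∧ ∀ p : e.toGluing.Space,
    Nonempty (FundamentalGroup e.toGluing.Space p ≃* (Monoid.PushoutI e.phi)ᵐᵒᵖ) := by
  refine ⟨pathConnectedSpace_space e, fun p => ?_⟩
  have := pathConnectedSpace_Q e
  obtain ⟨x₀, hx₀⟩ := isPathConnected_collar.nonempty
  have hx₀' : x₀ ∈ (sys e).φ.source := hx₀
  obtain ⟨E1⟩ := fundamentalGroup_homeo (homeo.{0} e) p
  let E2 : FundamentalGroup (Q.{0, 0, 0, 0, 0, 0} (sys e)) (homeo e p) ≃*
      FundamentalGroup (Q.{0, 0, 0, 0, 0, 0} (sys e)) (qX (sys e) x₀) :=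
    FundamentalGroup.fundamentalGroupMulEquivOfPathConnected _ _
  obtain ⟨E3⟩ := exists_mulEquiv.{0, 0, 0, 0, 0} (sys e) hA hA isPathConnected_collar hx₀'
  have E4 : FundamentalGroup (Q.{0, 0, 0, 0, 0, 0} (sys e)) (qX (sys e) x₀) ≃*
      (Monoid.PushoutI e.phi)ᵐᵒᵖ :=
    (MulEquiv.opOp _).trans (MulEquiv.op E3).symm
  exact ⟨E1.trans (E2.trans E4)⟩

theorem compact_space : CompactSpace e.toGluing.Space := e.toGluing.compact

end Model

end Pool.Agent.Work.MP_f0c219_gt
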