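import Pool.Agent.Work.MP_f0c219_gt.Model

/-!
# Topology, part 1: compactness of the glued spaces
-/

open Set Topology
open scoped ComplexConjugate

namespace Pool.Agent.Work.MP_f0c219_gt

open Borromean

namespace CuspedHyp3

variable (D : CuspedHyp3)

theorem isOpen_horoball (h : SL2C) : IsOpen (horoball h) := by
  have h1 : IsOpen {q : H3 | 1 < q.1.2} :=
    isOpen_lt continuous_const (continuous_snd.comp continuous_subtype_val)
  exact isOpenMap_smul h _ h1

theorem isClosed_core : IsClosed {q : H3 | ∀ h ∈ D.cusps, q ∉ horoball h} := by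
  have : {q : H3 | ∀ h ∈ D.cusps, q ∉ horoball h} = (⋃ h ∈ D.cusps, horoball h)ᶜ := by
    ext q
    simp
  rw [this]
  exact (isOpen_biUnion fun h _ => isOpen_horoball h).isClosed_compl

instance : CompactSpace D.Nbar := by
  obtain ⟨K, hK, h⟩ := D.cocompact
  have h1 : IsCompact (Subtype.val ⁻¹' K : Set {q : H3 // ∀ h ∈ D.cusps, q ∉ horoball h}) := by
    have := D.isClosed_core.isClosedEmbedding_subtypeVal
    exact this.isCompact_preimage hK
  let f : D.Core → D.Nbar := Quotient.mk D.coreSetoid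
  have hf : Continuous f := continuous_quotient_mk'
  have h2 : IsCompact (f '' (Subtype.val ⁻¹' K : Set {q : H3 // ∀ h ∈ D.cusps, q ∉ horoball h})) :=
    h1.image hf
  have h3 : f '' (Subtype.val ⁻¹' K : Set {q : H3 // ∀ h ∈ D.cusps, q ∉ horoball h}) = univ := by
    rw [eq_univ_iff_forall]
    intro x
    obtain ⟨y, rfl⟩ := Quotient.exists_rep x
    obtain ⟨g, hg, hy⟩ := h y.1 y.2
    have hcore : ∀ h ∈ D.cusps, g • y.1 ∉ horoball h := by
      intro h hh hmem
      obtain ⟨r, hr, hgr⟩ := hmem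
      refine y.2 (g⁻¹ * h) (D.invariant _ (D.Γ.inv_mem hg) _ hh) ⟨r, hr, ?_⟩
      simp only at hgr ⊢
      rw [mul_smul, hgr, inv_smul_smul]
    refine ⟨⟨g • y.1, hcore⟩, hy, ?_⟩
    refine Quotient.sound (s := D.coreSetoid) ?_
    exact ⟨g⁻¹, D.Γ.inv_mem hg, by rw [inv_smul_smul]⟩
  rw [h3] at h2
  exact ⟨h2⟩

end CuspedHyp3

theorem Gluing.compact (D : Gluing) : CompactSpace D.Space := by
  have : CompactSpace (D.V.Piece ⊕ D.W.Piece) := inferInstance
  exact Quot.compactSpace

end Pool.Agent.Work.MP_f0c219_gt
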