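import Pool.Agent.Work.MP_f0c219_gt_h72.Volume

/-!
# Block G, part 5: the cusp group at infinity, finite generation
-/

open Set Topology
open scoped ComplexConjugate

namespace Pool.Agent.Work.MP_f0c219_gt.Borromean

theorem ext4 {g h : SL2Gi} (h1 : g 0 0 = h 0 0) (h2 : g 0 1 = h 0 1) (h3 : g 1 0 = h 1 0)
    (h4 : g 1 1 = h 1 1) : g = h := by
  apply Subtype.ext
  apply Matrix.ext
  intro i j
  fin_cases i <;> fin_cases j
  · exact h1
  · exact h2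
  · exact h3
  · exact h4

theorem Tr_entries (w : GaussianInt) : Tr w 0 0 = 1 ∧ Tr w 0 1 = w ∧ Tr w 1 0 = 0 ∧ Tr w 1 1 = 1 :=
  ⟨rfl, rfl, rfl, rfl⟩

theorem S_entries : S 0 0 = 0 ∧ S 0 1 = -1 ∧ S 1 0 = 1 ∧ S 1 1 = 0 :=
  ⟨rfl, rfl, rfl, rfl⟩

theorem neg_entries (g : SL2Gi) (i j : Fin 2) : (-g) i j = -(g i j) := rfl

/-- The stabiliser of infinity in `Gam`. -/
theorem stab_infinity {g : SL2Gi} (hg : InGam g) (hc : g 1 0 = 0) :
    ∃ m n : ℤ, g = Tr (m * ⟨1, 1⟩ + n * ⟨-2, 2⟩) ∨ g = -Tr (m * ⟨1, 1⟩ + n * ⟨-2, 2⟩) := by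
  have hdet := det_eq g
  rw [hc, mul_zero, sub_zero] at hdet
  have hu := units_gauss hdet (trace_ne_zero hg)
  obtain ⟨β, γ, hb, -, hcase⟩ := hg
  have him : β.im % 2 = 0 := by
    rcases hcase with h | h
    · exact h.2.2.1
    · exfalso
      have h1 := h.1
      rcases hu with h2 | h2 <;> rw [h2.1] at h1 <;> simp at h1
  obtain ⟨n, hn⟩ : ∃ n, β.im = 2 * n := ⟨β.im / 2, by omega⟩
  have hβ : (⟨1, 1⟩ * β : GaussianInt) = (β.re : GaussianInt) * ⟨1, 1⟩ + (n : GaussianInt) * ⟨-2, 2⟩ := by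
    apply Zsqrtd.ext
    · simp [hn]; ring
    · simp [hn]; ring
  rcases hu with ⟨h1, h2⟩ | ⟨h1, h2⟩
  · refine ⟨β.re, n, Or.inl ?_⟩
    obtain ⟨t1, t2, t3, t4⟩ := Tr_entries ((β.re : GaussianInt) * ⟨1, 1⟩ + (n : GaussianInt) * ⟨-2, 2⟩)
    apply ext4
    · rw [t1, h1]
    · rw [t2, hb, hβ]
    · rw [t3, hc]
    · rw [t4, h2]
  · refine ⟨-β.re, -n, Or.inr ?_⟩
    have hβ' : -(⟨1, 1⟩ * β : GaussianInt) = ((-β.re : ℤ) : GaussianInt) * ⟨1, 1⟩ +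
        ((-n : ℤ) : GaussianInt) * ⟨-2, 2⟩ := by
      rw [hβ]; push_cast; ring
    obtain ⟨t1, t2, t3, t4⟩ := Tr_entries (((-β.re : ℤ) : GaussianInt) * ⟨1, 1⟩ +
        ((-n : ℤ) : GaussianInt) * ⟨-2, 2⟩)
    apply ext4
    · rw [neg_entries, t1, h1]
    · rw [neg_entries, t2, ← hβ', neg_neg, hb]
    · rw [neg_entries, t3, hc, neg_zero]
    · rw [neg_entries, t4, h2]

theorem inGam_Tr (m n : ℤ) : InGam (Tr (m * ⟨1, 1⟩ + n * ⟨-2, 2⟩)) := by
  obtain ⟨t1, t2, t3, t4⟩ := Tr_entries ((m : GaussianInt) * ⟨1, 1⟩ + (n : GaussianInt) * ⟨-2, 2⟩)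
  refine ⟨⟨m, 2 * n⟩, 0, ?_, ?_, Or.inl ⟨?_, ?_, ?_, ?_⟩⟩
  · rw [t2]
    apply Zsqrtd.ext
    · simp; ring
    · simp; ring
  · rw [t3]; simp
  · rw [t1]; rfl
  · rw [t1]; rfl
  · simp
  · simp

/-- If a point and its image both have height greater than one, infinity is fixed. -/
theorem c_eq_zero_of_height {g : SL2Gi} {q : H3} (h1 : 1 < q.1.2) (h2 : 1 < (toC g • q).1.2) :
    g 1 0 = 0 := by
  by_contra h
  have := height_of_c_ne_zero h q
  nlinarith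

/-! ## Finite generation -/

/-- The generators `S`, `T(1)`, `T(i)`. -/
def gens : Set SL2Gi := {S, Tr 1, Tr ⟨0, 1⟩}

theorem Tr_add (w w' : GaussianInt) : Tr (w + w') = Tr w * Tr w' := by
  obtain ⟨m1, m2, m3, m4⟩ := mul_entriesG (Tr w) (Tr w')
  obtain ⟨t1, t2, t3, t4⟩ := Tr_entries w
  obtain ⟨s1, s2, s3, s4⟩ := Tr_entries w'
  obtain ⟨r1, r2, r3, r4⟩ := Tr_entries (w + w')
  apply ext4
  · rw [m1, r1, t1, t2, s1, s3]; ring
  · rw [m2, r2, t1, t2, s2, s4]; ring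
  · rw [m3, r3, t3, t4, s1, s3]; ring
  · rw [m4, r4, t3, t4, s2, s4]; ring

theorem Tr_zero : Tr 0 = 1 := by
  apply ext4 <;> rfl

theorem Tr_neg (w : GaussianInt) : Tr (-w) = (Tr w)⁻¹ := by
  rw [eq_inv_iff_mul_eq_one, ← Tr_add, neg_add_cancel, Tr_zero]

/-- `Tr` as a homomorphism. -/
def TrHom : Multiplicative GaussianInt →* SL2Gi where
  toFun w := Tr (Multiplicative.toAdd w)
  map_one' := Tr_zero
  map_mul' _ _ := Tr_add _ _

theorem Tr_mem (w : GaussianInt) : Tr w ∈ Subgroup.closure gens := by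
  have h : Tr w = Tr 1 ^ w.re * Tr ⟨0, 1⟩ ^ w.im := by
    have e1 : Tr 1 ^ w.re = Tr (w.re • (1 : GaussianInt)) := by
      change TrHom (Multiplicative.ofAdd 1) ^ w.re = TrHom (Multiplicative.ofAdd (w.re • 1))
      rw [← map_zpow, ofAdd_zsmul]
    have e2 : Tr ⟨0, 1⟩ ^ w.im = Tr (w.im • (⟨0, 1⟩ : GaussianInt)) := by
      change TrHom (Multiplicative.ofAdd ⟨0, 1⟩) ^ w.im = TrHom (Multiplicative.ofAdd (w.im • ⟨0, 1⟩))
      rw [← map_zpow, ofAdd_zsmul]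
    rw [e1, e2, ← Tr_add]
    congr 1
    apply Zsqrtd.ext <;> simp
  rw [h]
  apply Subgroup.mul_mem
  · exact Subgroup.zpow_mem _ (Subgroup.subset_closure (by simp [gens])) _
  · exact Subgroup.zpow_mem _ (Subgroup.subset_closure (by simp [gens])) _

theorem S_mem : S ∈ Subgroup.closure gens := Subgroup.subset_closure (by simp [gens])

theorem S_mul_entries (g : SL2Gi) : (S * g) 0 0 = -(g 1 0) ∧ (S * g) 0 1 = -(g 1 1) ∧
    (S * g) 1 0 = g 0 0 ∧ (S * g) 1 1 = g 0 1 := by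
  obtain ⟨m1, m2, m3, m4⟩ := mul_entriesG S g
  obtain ⟨s1, s2, s3, s4⟩ := S_entries
  rw [m1, m2, m3, m4, s1, s2, s3, s4]
  refine ⟨?_, ?_, ?_, ?_⟩ <;> ring

theorem Tr_mul_entries (w : GaussianInt) (g : SL2Gi) : (Tr w * g) 0 0 = g 0 0 + w * g 1 0 ∧
    (Tr w * g) 0 1 = g 0 1 + w * g 1 1 ∧ (Tr w * g) 1 0 = g 1 0 ∧ (Tr w * g) 1 1 = g 1 1 := by
  obtain ⟨m1, m2, m3, m4⟩ := mul_entriesG (Tr w) g
  obtain ⟨s1, s2, s3, s4⟩ := Tr_entries w
  rw [m1, m2, m3, m4, s1, s2, s3, s4]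
  refine ⟨?_, ?_, ?_, ?_⟩ <;> ring

/-- The Euclidean algorithm. -/
theorem mem_closure_aux : ∀ (n : ℕ) (g : SL2Gi), (g 1 0).norm.natAbs ≤ n →
    g ∈ Subgroup.closure gens := by
  intro n
  induction n with
  | zero =>
    intro g hn
    have hc : g 1 0 = 0 := by
      have : (g 1 0).norm = 0 := by omega
      exact GaussianInt.norm_eq_zero.1 this
    -- multiply on the left: `S * T(a-ish) ...` to reach a matrix with entries `(1, *; 0, 1)`
    have hdet := det_eq g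
    rw [hc, mul_zero, sub_zero] at hdet
    -- g = (a b; 0 d), a d = 1.  h := T(-a) S T(-d) S T(-a) g  is  S⁻¹-like times translation
    have key : S * (Tr (-(g 0 0)) * (S * (Tr (-(g 1 1)) * (S * (Tr (-(g 0 0)) * g))))) =
        Tr (g 1 1 * g 0 1) := by
      obtain ⟨a1, a2, a3, a4⟩ := Tr_mul_entries (-(g 0 0)) g
      obtain ⟨b1, b2, b3, b4⟩ := S_mul_entries (Tr (-(g 0 0)) * g)
      obtain ⟨c1, c2, c3, c4⟩ := Tr_mul_entries (-(g 1 1)) (S * (Tr (-(g 0 0)) * g))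
      obtain ⟨d1, d2, d3, d4⟩ := S_mul_entries (Tr (-(g 1 1)) * (S * (Tr (-(g 0 0)) * g)))
      obtain ⟨e1, e2, e3, e4⟩ := Tr_mul_entries (-(g 0 0))
        (S * (Tr (-(g 1 1)) * (S * (Tr (-(g 0 0)) * g))))
      obtain ⟨f1, f2, f3, f4⟩ := S_mul_entries
        (Tr (-(g 0 0)) * (S * (Tr (-(g 1 1)) * (S * (Tr (-(g 0 0)) * g)))))
      obtain ⟨r1, r2, r3, r4⟩ := Tr_entries (g 1 1 * g 0 1)
      apply ext4
      · rw [f1, e3, d3, c1, b1, b3, a3, a1, r1, hc]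
        linear_combination hdet
      · rw [f2, e4, d4, c2, b2, b4, a4, a2, r2]
        linear_combination (-(g 1 1)) * hdet
      · rw [f3, e1, d1, d3, c3, c1, b3, b1, a3, a1, r3, hc]
        linear_combination (g 0 0) * hdet
      · rw [f4, e2, d2, d4, c4, c2, b4, b2, a4, a2, r4]
        linear_combination (1 + g 0 1 - g 0 0 * g 1 1) * hdet
    have h2 : S * (Tr (-(g 0 0)) * (S * (Tr (-(g 1 1)) * (S * (Tr (-(g 0 0)) * g))))) ∈
        Subgroup.closure gens := by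
      rw [key]; exact Tr_mem _
    rw [Subgroup.mul_mem_cancel_left _ S_mem, Subgroup.mul_mem_cancel_left _ (Tr_mem _),
      Subgroup.mul_mem_cancel_left _ S_mem, Subgroup.mul_mem_cancel_left _ (Tr_mem _),
      Subgroup.mul_mem_cancel_left _ S_mem, Subgroup.mul_mem_cancel_left _ (Tr_mem _)] at h2
    exact h2
  | succ n ih =>
    intro g hn
    by_cases hc : g 1 0 = 0
    · apply ih
      rw [hc]
      simp
    · -- reduce `a` modulo `c`, then swap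
      have h1 := GaussianInt.norm_mod_lt (g 0 0) hc
      have h2 : S * (Tr (-(g 0 0 / g 1 0)) * g) ∈ Subgroup.closure gens := by
        apply ih
        obtain ⟨f1, f2, f3, f4⟩ := S_mul_entries (Tr (-(g 0 0 / g 1 0)) * g)
        obtain ⟨e1, e2, e3, e4⟩ := Tr_mul_entries (-(g 0 0 / g 1 0)) g
        rw [f3, e1]
        have h3 : g 0 0 + -(g 0 0 / g 1 0) * g 1 0 = g 0 0 % g 1 0 := by
          rw [GaussianInt.mod_def]; ring
        rw [h3]
        have h4 := GaussianInt.norm_nonneg (g 0 0 % g 1 0)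
        omega
      rw [Subgroup.mul_mem_cancel_left _ S_mem, Subgroup.mul_mem_cancel_left _ (Tr_mem _)] at h2
      exact h2

theorem closure_gens : Subgroup.closure gens = ⊤ := by
  rw [eq_top_iff]
  intro g _
  exact mem_closure_aux _ g le_rfl

instance fg_SL2Gi : Group.FG SL2Gi := by
  rw [Group.fg_iff]
  exact ⟨gens, closure_gens, by unfold gens; exact Set.toFinite _⟩

instance finiteIndex_Gam : Gam.FiniteIndex := by
  have h : Finite (SL2Gi ⧸ Gam) := by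
    let f : Set.range res → SL2Gi ⧸ Gam := fun x => QuotientGroup.mk x.2.choose
    refine Finite.of_surjective f ?_
    intro x
    obtain ⟨γ, rfl⟩ := QuotientGroup.mk_surjective x
    refine ⟨⟨res γ, γ, rfl⟩, ?_⟩
    rw [QuotientGroup.eq]
    exact inGam_of_res (⟨γ, rfl⟩ : ∃ y, res y = res γ).choose_spec.symm
  exact Subgroup.finiteIndex_of_finite_quotient

instance fg_Gam : Group.FG Gam := Subgroup.fg_of_index_ne_zero Gam

/-! ## The longitude is a commutator -/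

/-- The matrix `y = (1 0; -1-i 1)`. -/
def yM : SL2Gi := ⟨!![1, 0; ⟨-1, -1⟩, 1], by simp [Matrix.det_fin_two]⟩

/-- The matrix `z = (i 1+i; 1+i 2-i)`. -/
def zM : SL2Gi := ⟨!![⟨0, 1⟩, ⟨1, 1⟩; ⟨1, 1⟩, ⟨2, -1⟩], by
  rw [Matrix.det_fin_two]
  simp only [Matrix.of_apply, Matrix.cons_val', Matrix.cons_val_zero, Matrix.cons_val_one,
    Matrix.cons_val_fin_one]
  decide⟩

theorem inGam_yM : InGam yM :=
  ⟨0, -1, rfl, rfl, Or.inl ⟨rfl, rfl, rfl, rfl⟩⟩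

theorem inGam_zM : InGam zM :=
  ⟨1, 1, rfl, rfl, Or.inr ⟨rfl, rfl, rfl, rfl⟩⟩

open scoped commutatorElement in
theorem commutator_eq : ⁅zM⁻¹, yM⁻¹⁆ = -Tr ⟨-2, 2⟩ := by
  rw [commutatorElement_def, inv_inv, inv_inv]
  obtain ⟨i1, i2, i3, i4⟩ := inv_entriesG zM
  obtain ⟨j1, j2, j3, j4⟩ := inv_entriesG yM
  obtain ⟨m1, m2, m3, m4⟩ := mul_entriesG zM⁻¹ yM⁻¹
  obtain ⟨n1, n2, n3, n4⟩ := mul_entriesG (zM⁻¹ * yM⁻¹) zM
  obtain ⟨p1, p2, p3, p4⟩ := mul_entriesG (zM⁻¹ * yM⁻¹ * zM) yM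
  apply ext4
  · rw [p1, n1, n2, m1, m2, i1, i2, j1, j2, j3, j4]; decide
  · rw [p2, n1, n2, m1, m2, i1, i2, j1, j2, j3, j4]; decide
  · rw [p3, n3, n4, m3, m4, i3, i4, j1, j2, j3, j4]; decide
  · rw [p4, n3, n4, m3, m4, i3, i4, j1, j2, j3, j4]; decide

end Pool.Agent.Work.MP_f0c219_gt.Borromean
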