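import Pool.Agent.Work.MP_f0c219_gt_h72.Reduce

/-!
# Block G, part 4: finite volume
-/

open Set Topology MeasureTheory
open scoped ComplexConjugate ENNReal

namespace Pool.Agent.Work.MP_f0c219_gt.Borromean

theorem lintegral_cube_lt_top {ε : ℝ} (hε : 0 < ε) :
    ∫⁻ t in Ici ε, ENNReal.ofReal (1 / t ^ 3) < ⊤ := by
  have h1 : IntegrableOn (fun t : ℝ => t ^ (-3 : ℝ)) (Ioi ε) :=
    integrableOn_Ioi_rpow_of_lt (by norm_num) hε
  have h2 : IntegrableOn (fun t : ℝ => t ^ (-3 : ℝ)) (Ici ε) := by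
    rwa [integrableOn_Ici_iff_integrableOn_Ioi]
  have h3 : ∫⁻ t in Ici ε, ENNReal.ofReal (1 / t ^ 3) =
      ∫⁻ t in Ici ε, ENNReal.ofReal (t ^ (-3 : ℝ)) := by
    apply setLIntegral_congr_fun measurableSet_Ici
    intro t ht
    have ht0 : 0 < t := lt_of_lt_of_le hε ht
    simp only
    rw [Real.rpow_neg ht0.le, one_div]
    norm_cast
  rw [h3]
  exact h2.lintegral_lt_top

theorem region_infinity {C ε : ℝ} (hε : 0 < ε) :
    hypVolume {q : H3 | ‖q.1.1‖ ≤ C ∧ ε ≤ q.1.2} < ⊤ := by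
  unfold hypVolume
  have hsub : (Subtype.val '' {q : H3 | ‖q.1.1‖ ≤ C ∧ ε ≤ q.1.2} : Set (ℂ × ℝ)) ⊆
      Metric.closedBall (0 : ℂ) C ×ˢ Ici ε := by
    rintro _ ⟨q, ⟨h1, h2⟩, rfl⟩
    exact ⟨by simpa using h1, h2⟩
  refine lt_of_le_of_lt (lintegral_mono_set hsub) ?_
  rw [Measure.volume_eq_prod, ← Measure.prod_restrict]
  have h : ∫⁻ q : ℂ × ℝ, ENNReal.ofReal (1 / q.2 ^ 3)
      ∂((volume.restrict (Metric.closedBall (0 : ℂ) C)).prod (volume.restrict (Ici ε))) =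
      volume (Metric.closedBall (0 : ℂ) C) * ∫⁻ t in Ici ε, ENNReal.ofReal (1 / t ^ 3) := by
    rw [lintegral_prod _ (by fun_prop)]
    simp only
    rw [lintegral_const, Measure.restrict_apply MeasurableSet.univ, Set.univ_inter, mul_comm]
  rw [h]
  exact ENNReal.mul_lt_top (Metric.isBounded_closedBall.measure_lt_top) (lintegral_cube_lt_top hε)

theorem region_cusp (z₀ : ℂ) {C : ℝ} (hC : 0 < C) :
    hypVolume {q : H3 | ‖q.1.1 - z₀‖ ≤ C * q.1.2 ^ 2 ∧ q.1.2 ≤ C} < ⊤ := by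
  unfold hypVolume
  let B : Set (ℂ × ℝ) := {p | ‖p.1 - z₀‖ ≤ C * p.2 ^ 2 ∧ p.2 ≤ C ∧ 0 < p.2}
  have hsub : (Subtype.val '' {q : H3 | ‖q.1.1 - z₀‖ ≤ C * q.1.2 ^ 2 ∧ q.1.2 ≤ C} :
      Set (ℂ × ℝ)) ⊆ B := by
    rintro _ ⟨q, ⟨h1, h2⟩, rfl⟩
    exact ⟨h1, h2, q.2⟩
  refine lt_of_le_of_lt (lintegral_mono_set hsub) ?_
  have hB : MeasurableSet B := by
    have e1 : MeasurableSet {p : ℂ × ℝ | ‖p.1 - z₀‖ ≤ C * p.2 ^ 2} :=
      measurableSet_le (by fun_prop) (by fun_prop)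
    have e2 : MeasurableSet {p : ℂ × ℝ | p.2 ≤ C} := measurableSet_le (by fun_prop) (by fun_prop)
    have e3 : MeasurableSet {p : ℂ × ℝ | 0 < p.2} := measurableSet_lt (by fun_prop) (by fun_prop)
    exact e1.inter (e2.inter e3)
  rw [← lintegral_indicator hB, Measure.volume_eq_prod, lintegral_prod_symm]
  swap
  · exact (Measurable.indicator (by fun_prop) hB).aemeasurable
  have hinner : ∀ t : ℝ, (∫⁻ z : ℂ, B.indicator (fun q : ℂ × ℝ => ENNReal.ofReal (1 / q.2 ^ 3)) (z, t)) ≤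
      (Ioc 0 C).indicator (fun _ => ENNReal.ofReal (C ^ 2 * C) * NNReal.pi) t := by
    intro t
    by_cases ht : t ∈ Ioc 0 C
    · rw [Set.indicator_of_mem ht]
      have hpos : 0 < t := ht.1
      have h1 : ∀ z : ℂ, B.indicator (fun q : ℂ × ℝ => ENNReal.ofReal (1 / q.2 ^ 3)) (z, t) =
          (Metric.closedBall z₀ (C * t ^ 2)).indicator (fun _ => ENNReal.ofReal (1 / t ^ 3)) z := by
        intro z
        by_cases hz : z ∈ Metric.closedBall z₀ (C * t ^ 2)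
        · rw [Set.indicator_of_mem hz, Set.indicator_of_mem]
          refine ⟨?_, ht.2, hpos⟩
          simpa [dist_eq_norm] using hz
        · rw [Set.indicator_of_notMem hz, Set.indicator_of_notMem]
          rintro ⟨h2, _⟩
          apply hz
          simpa [dist_eq_norm] using h2
      simp only [h1]
      rw [lintegral_indicator Metric.isClosed_closedBall.measurableSet, lintegral_const,
        Measure.restrict_apply MeasurableSet.univ, Set.univ_inter, Complex.volume_closedBall,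
        ← mul_assoc]
      gcongr
      rw [← ENNReal.ofReal_pow (by positivity), ← ENNReal.ofReal_mul (by positivity)]
      apply ENNReal.ofReal_le_ofReal
      have : 1 / t ^ 3 * (C * t ^ 2) ^ 2 = C ^ 2 * t := by
        field_simp
      rw [this]
      have := ht.2
      gcongr
    · rw [Set.indicator_of_notMem ht]
      have h1 : ∀ z : ℂ, B.indicator (fun q : ℂ × ℝ => ENNReal.ofReal (1 / q.2 ^ 3)) (z, t) = 0 := by
        intro z
        apply Set.indicator_of_notMem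
        rintro ⟨_, h2, h3⟩
        exact ht ⟨h3, h2⟩
      simp only [h1, lintegral_zero, le_refl]
  refine lt_of_le_of_lt (lintegral_mono hinner) ?_
  rw [lintegral_indicator measurableSet_Ioc, lintegral_const, Measure.restrict_apply MeasurableSet.univ,
    Set.univ_inter, Real.volume_Ioc]
  exact ENNReal.mul_lt_top (ENNReal.mul_lt_top ENNReal.ofReal_lt_top ENNReal.coe_lt_top)
    ENNReal.ofReal_lt_top

/-- The images of the Siegel domain `{|z| ≤ 1, t ≥ 1/2}` have finite volume. -/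
theorem siegel_volume (g : SL2C) : ∃ V : Set H3, MeasurableSet V ∧ hypVolume V < ⊤ ∧
    ∀ q : H3, ‖q.1.1‖ ≤ 1 → 1 / 2 ≤ q.1.2 → g • q ∈ V := by
  by_cases hc : g 1 0 = 0
  · -- the point at infinity is fixed
    have hd : g 1 1 ≠ 0 := by
      intro h
      have := detC g
      rw [hc, h] at this
      simp at this
    have hD : 0 < Complex.normSq (g 1 1) := Complex.normSq_pos.2 hd
    refine ⟨{q : H3 | ‖q.1.1‖ ≤ (‖g 0 0‖ + ‖g 0 1‖) * ‖g 1 1‖ / Complex.normSq (g 1 1) ∧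
      1 / 2 / Complex.normSq (g 1 1) ≤ q.1.2}, ?_, region_infinity (by positivity), ?_⟩
    · have e1 : MeasurableSet {q : H3 | ‖q.1.1‖ ≤
          (‖g 0 0‖ + ‖g 0 1‖) * ‖g 1 1‖ / Complex.normSq (g 1 1)} :=
        measurableSet_le (by fun_prop) (by fun_prop)
      have e2 : MeasurableSet {q : H3 | 1 / 2 / Complex.normSq (g 1 1) ≤ q.1.2} :=
        measurableSet_le (by fun_prop) (by fun_prop)
      exact e1.inter e2
    · intro q hz ht
      have hden : den g q = Complex.normSq (g 1 1) := by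
        unfold den; rw [hc]; simp
      refine ⟨?_, ?_⟩
      · rw [smul_z, hden, hc]
        simp only [zero_mul, zero_add, map_zero, mul_zero, add_zero]
        rw [norm_div, Complex.norm_real, Real.norm_eq_abs, abs_of_pos hD, norm_mul, Complex.norm_conj]
        gcongr
        calc ‖g 0 0 * q.1.1 + g 0 1‖ ≤ ‖g 0 0 * q.1.1‖ + ‖g 0 1‖ := norm_add_le _ _
          _ ≤ ‖g 0 0‖ * 1 + ‖g 0 1‖ := by rw [norm_mul]; gcongr
          _ = _ := by ring
      · rw [smul_height, hden]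
        gcongr
  · have hcn : 0 < ‖g 1 0‖ := norm_pos_iff.2 hc
    set U : ℝ := ‖g 1 0‖ + ‖g 1 1‖ with hU
    have hU0 : 0 < U := by positivity
    set C : ℝ := U * (4 * U ^ 2 + ‖g 1 0‖ ^ 2) / ‖g 1 0‖ + 2 / ‖g 1 0‖ ^ 2 with hCdef
    have hC1 : U * (4 * U ^ 2 + ‖g 1 0‖ ^ 2) / ‖g 1 0‖ ≤ C := by
      rw [hCdef]; have : 0 < 2 / ‖g 1 0‖ ^ 2 := by positivity
      linarith
    have hC2 : 2 / ‖g 1 0‖ ^ 2 ≤ C := by
      rw [hCdef]; have : 0 < U * (4 * U ^ 2 + ‖g 1 0‖ ^ 2) / ‖g 1 0‖ := by positivity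
      linarith
    have hC0 : 0 < C := lt_of_lt_of_le (by positivity) hC2
    refine ⟨{q : H3 | ‖q.1.1 - g 0 0 / g 1 0‖ ≤ C * q.1.2 ^ 2 ∧ q.1.2 ≤ C}, ?_,
      region_cusp _ hC0, ?_⟩
    · have e1 : MeasurableSet {q : H3 | ‖q.1.1 - g 0 0 / g 1 0‖ ≤ C * q.1.2 ^ 2} :=
        measurableSet_le (by fun_prop) (by fun_prop)
      have e2 : MeasurableSet {q : H3 | q.1.2 ≤ C} :=
        measurableSet_le (by fun_prop) (by fun_prop)
      exact e1.inter e2
    · intro q hz ht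
      have hDpos := den_pos g q
      have hD : (den g q : ℂ) ≠ 0 := by exact_mod_cast hDpos.ne'
      have htpos : 0 < q.1.2 := q.2
      set u := g 1 0 * q.1.1 + g 1 1 with hu
      have hun : ‖u‖ ≤ U := by
        calc ‖u‖ ≤ ‖g 1 0 * q.1.1‖ + ‖g 1 1‖ := norm_add_le _ _
          _ ≤ ‖g 1 0‖ * 1 + ‖g 1 1‖ := by rw [norm_mul]; gcongr
          _ = U := by rw [hU]; ring
      have hden : den g q = ‖u‖ ^ 2 + ‖g 1 0‖ ^ 2 * q.1.2 ^ 2 := by
        unfold den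
        rw [Complex.normSq_eq_norm_sq, Complex.normSq_eq_norm_sq]
      have hden1 : den g q ≤ (4 * U ^ 2 + ‖g 1 0‖ ^ 2) * q.1.2 ^ 2 := by
        rw [hden]
        have h1 : ‖u‖ ^ 2 ≤ U ^ 2 := pow_le_pow_left₀ (norm_nonneg _) hun 2
        have h2 : 1 ≤ 4 * q.1.2 ^ 2 := by nlinarith
        nlinarith [sq_nonneg U]
      refine ⟨?_, ?_⟩
      · have hz2 := smul_z_sub g q
        have h3 : (g • q).1.1 - g 0 0 / g 1 0 = -(conj u) / (g 1 0 * den g q) := by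
          field_simp
          rw [hu]
          linear_combination hz2
        rw [h3, norm_div, norm_neg, Complex.norm_conj, norm_mul, Complex.norm_real, Real.norm_eq_abs,
          abs_of_pos hDpos, smul_height, div_pow, div_le_iff₀ (by positivity)]
        have h4 : C * (q.1.2 ^ 2 / den g q ^ 2) * (‖g 1 0‖ * den g q) =
            C * ‖g 1 0‖ * q.1.2 ^ 2 / den g q := by
          field_simp
        rw [h4, le_div_iff₀ hDpos]
        have h5 : U * (4 * U ^ 2 + ‖g 1 0‖ ^ 2) ≤ C * ‖g 1 0‖ := by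
          rwa [div_le_iff₀ hcn] at hC1
        calc ‖u‖ * den g q ≤ U * ((4 * U ^ 2 + ‖g 1 0‖ ^ 2) * q.1.2 ^ 2) := by
              apply mul_le_mul hun hden1 hDpos.le hU0.le
          _ = U * (4 * U ^ 2 + ‖g 1 0‖ ^ 2) * q.1.2 ^ 2 := by ring
          _ ≤ C * ‖g 1 0‖ * q.1.2 ^ 2 := by gcongr
      · rw [smul_height]
        refine le_trans ?_ hC2
        rw [div_le_div_iff₀ hDpos (by positivity), hden]
        have : 0 ≤ ‖u‖ ^ 2 := by positivity
        have h6 : 0 < ‖g 1 0‖ ^ 2 := by positivity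
        nlinarith [mul_nonneg h6.le (mul_nonneg htpos.le (by linarith : 0 ≤ 2 * q.1.2 - 1))]

theorem hypVolume_union_lt_top {A B : Set H3} (hA : hypVolume A < ⊤) (hB : hypVolume B < ⊤) :
    hypVolume (A ∪ B) < ⊤ := by
  unfold hypVolume at *
  rw [Set.image_union]
  exact lt_of_le_of_lt (lintegral_union_le _ _ _) (ENNReal.add_lt_top.2 ⟨hA, hB⟩)

theorem exists_finite_region {R : Set SL2Gi} (hR : R.Finite) : ∃ V : Set H3, MeasurableSet V ∧
    hypVolume V < ⊤ ∧ ∀ ρ ∈ R, ∀ q : H3, ‖q.1.1‖ ≤ 1 → 1 / 2 ≤ q.1.2 → (toC ρ)⁻¹ • q ∈ V := by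
  induction R, hR using Set.Finite.induction_on with
  | empty =>
    refine ⟨∅, MeasurableSet.empty, ?_, by simp⟩
    unfold hypVolume
    simp
  | @insert a s _ _ ih =>
    obtain ⟨V, hV, hvol, h⟩ := ih
    obtain ⟨W, hW, hwol, h'⟩ := siegel_volume (toC a)⁻¹
    refine ⟨V ∪ W, hV.union hW, hypVolume_union_lt_top hvol hwol, ?_⟩
    intro ρ hρ q hz ht
    rcases hρ with rfl | hρ
    · exact Or.inr (h' q hz ht)
    · exact Or.inl (h ρ hρ q hz ht)

theorem finiteVolume_aux : ∃ F : Set H3, MeasurableSet F ∧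
    (∀ q : H3, ∃ g : SL2Gi, InGam g ∧ toC g • q ∈ F) ∧ hypVolume F < ⊤ := by
  obtain ⟨R, hR, hrep⟩ := exists_reps
  obtain ⟨V, hV, hvol, h⟩ := exists_finite_region hR
  refine ⟨V, hV, fun q => ?_, hvol⟩
  obtain ⟨γ, h1, h2⟩ := reduction q
  obtain ⟨ρ, hρ, hin⟩ := hrep γ
  refine ⟨ρ⁻¹ * γ, hin, ?_⟩
  have := h ρ hρ (toC γ • q) h1 h2
  rwa [map_mul, mul_smul, map_inv]

/-! ## The lattice -/

/-- The Borromean rings lattice. -/
theorem exists_borromean : ∃ B : CuspedHyp3,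
    (∀ g : SL2C, g ∈ B.Γ ↔ ∃ γ : SL2Gi, InGam γ ∧ toC γ = g) ∧
    (∀ h : SL2C, h ∈ B.cusps ↔ ∃ γ : SL2Gi, h = toC γ * D4) := by
  refine ⟨{
    Γ := Gam.map toC
    discrete := ?_
    free := ?_
    finiteVolume := ?_
    cusps := {h | ∃ γ : SL2Gi, h = toC γ * D4}
    nonempty := ⟨toC 1 * D4, 1, rfl⟩
    invariant := ?_
    disjoint := ?_
    cocompact := ?_
    toric := ?_ }, ?_, ?_⟩
  · intro K hK
    refine ((finite_meet hK).image toC).subset ?_
    rintro _ ⟨⟨γ, _, rfl⟩, h⟩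
    exact ⟨γ, h, rfl⟩
  · rintro _ ⟨γ, hγ, rfl⟩ q h
    exact gam_free hγ q h
  · obtain ⟨F, h1, h2, h3⟩ := finiteVolume_aux
    refine ⟨F, h1, fun q => ?_, h3⟩
    obtain ⟨g, hg, h4⟩ := h2 q
    exact ⟨toC g, ⟨g, hg, rfl⟩, h4⟩
  · rintro _ ⟨γ, hγ, rfl⟩ _ ⟨ρ, rfl⟩
    exact ⟨γ * ρ, by rw [map_mul, mul_assoc]⟩
  · rintro _ ⟨γ, rfl⟩ _ ⟨ρ, rfl⟩
    exact horoball_eq_or_disjoint γ ρ
  · obtain ⟨K, hK, h⟩ := cocompact_aux
    refine ⟨K, hK, fun q hq => ?_⟩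
    obtain ⟨g, hg, h2⟩ := h q (fun γ => hq _ ⟨γ, rfl⟩)
    exact ⟨toC g, ⟨g, hg, rfl⟩, h2⟩
  · rintro _ ⟨γ, rfl⟩ _ ⟨g, hg, rfl⟩ hst
    exact toric_aux hg hst
  · intro g
    rfl
  · intro h
    rfl

end Pool.Agent.Work.MP_f0c219_gt.Borromean
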