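import Pool.Agent.Work.MP_f0c219_gt.Gam

/-!
# Block G, part 1: the arithmetic of the group `Gam`
-/

open Set Topology
open scoped ComplexConjugate

namespace Pool.Agent.Work.MP_f0c219_gt.Borromean

theorem par0 (n : ℤ) : n % 2 = 0 ↔ (n : ZMod 2) = 0 := by
  rw [ZMod.intCast_zmod_eq_zero_iff_dvd]
  exact (Int.dvd_iff_emod_eq_zero).symm

theorem par1 (n : ℤ) : n % 2 = 1 ↔ (n : ZMod 2) = 1 := by
  have h := ZMod.intCast_eq_intCast_iff n 1 2
  push_cast at h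
  rw [h]
  rfl

/-- The parity conditions, in `ZMod 2`. -/
def Cls (a β γ : GaussianInt) : Prop :=
  (((a.re : ZMod 2) = 1 ∧ (a.im : ZMod 2) = 0 ∧ (β.im : ZMod 2) = 0 ∧ (γ.im : ZMod 2) = 0) ∨
     ((a.re : ZMod 2) = 0 ∧ (a.im : ZMod 2) = 1 ∧ (β.re : ZMod 2) = 1 ∧ (γ.re : ZMod 2) = 1))

theorem inGam_iff (g : SL2Gi) : InGam g ↔ ∃ β γ : GaussianInt, g 0 1 = ⟨1, 1⟩ * β ∧
    g 1 0 = ⟨1, 1⟩ * γ ∧ Cls (g 0 0) β γ := by
  simp only [InGam, Cls, par0, par1]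

theorem det_eq (g : SL2Gi) : g 0 0 * g 1 1 - g 0 1 * g 1 0 = 1 := by
  have := g.det_coe
  rwa [Matrix.det_fin_two] at this

/-- The class of `d` is the class of `a`. -/
theorem cls_d {g : SL2Gi} {β γ : GaussianInt} (hb : g 0 1 = ⟨1, 1⟩ * β) (hc : g 1 0 = ⟨1, 1⟩ * γ)
    (h : Cls (g 0 0) β γ) : ((g 1 1).re : ZMod 2) = ((g 0 0).re : ZMod 2) ∧
      ((g 1 1).im : ZMod 2) = ((g 0 0).im : ZMod 2) := by
  have hdet := det_eq g
  rw [hb, hc] at hdet
  have h1 := congrArg (fun x : GaussianInt => ((x.re : ℤ) : ZMod 2)) hdet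
  have h2 := congrArg (fun x : GaussianInt => ((x.im : ℤ) : ZMod 2)) hdet
  simp only [Zsqrtd.re_sub, Zsqrtd.im_sub, Zsqrtd.re_mul, Zsqrtd.im_mul, Zsqrtd.re_one,
    Zsqrtd.im_one] at h1 h2
  push_cast at h1 h2
  rcases h with ⟨ha1, ha2, hβ, hγ⟩ | ⟨ha1, ha2, hβ, hγ⟩
  · rw [ha1, ha2, hβ, hγ] at h1 h2
    rw [ha1, ha2]
    generalize ((g 1 1).re : ZMod 2) = x at *
    generalize ((g 1 1).im : ZMod 2) = y at *
    generalize (β.re : ZMod 2) = u at *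
    generalize (γ.re : ZMod 2) = v at *
    revert x y u v
    decide
  · rw [ha1, ha2, hβ, hγ] at h1 h2
    rw [ha1, ha2]
    generalize ((g 1 1).re : ZMod 2) = x at *
    generalize ((g 1 1).im : ZMod 2) = y at *
    generalize (β.im : ZMod 2) = u at *
    generalize (γ.im : ZMod 2) = v at *
    revert x y u v
    decide

theorem inGam_one : InGam 1 := by
  rw [inGam_iff]
  exact ⟨0, 0, by simp, by simp, Or.inl (by simp)⟩

theorem inGam_mul {g h : SL2Gi} (hg : InGam g) (hh : InGam h) : InGam (g * h) := by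
  rw [inGam_iff] at *
  obtain ⟨β, γ, hb, hc, h1⟩ := hg
  obtain ⟨β', γ', hb', hc', h1'⟩ := hh
  have hd := cls_d hb hc h1
  have hd' := cls_d hb' hc' h1'
  refine ⟨g 0 0 * β' + β * h 1 1, γ * h 0 0 + g 1 1 * γ', ?_, ?_, ?_⟩
  · simp only [Matrix.SpecialLinearGroup.coe_mul, Matrix.mul_apply, Fin.sum_univ_two]
    rw [hb, hb']
    ring
  · simp only [Matrix.SpecialLinearGroup.coe_mul, Matrix.mul_apply, Fin.sum_univ_two]
    rw [hc, hc']
    ring
  · unfold Cls at *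
    simp only [Matrix.SpecialLinearGroup.coe_mul, Matrix.mul_apply, Fin.sum_univ_two]
    rw [hb, hc']
    simp only [Zsqrtd.re_add, Zsqrtd.im_add, Zsqrtd.re_mul, Zsqrtd.im_mul]
    push_cast
    rw [hd.1, hd.2, hd'.1, hd'.2]
    generalize ((g 0 0).re : ZMod 2) = a1 at *
    generalize ((g 0 0).im : ZMod 2) = a2 at *
    generalize ((h 0 0).re : ZMod 2) = a1' at *
    generalize ((h 0 0).im : ZMod 2) = a2' at *
    generalize (β.im : ZMod 2) = b2 at *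
    generalize (γ.im : ZMod 2) = c2 at *
    generalize (β.re : ZMod 2) = b1 at *
    generalize (γ.re : ZMod 2) = c1 at *
    generalize (β'.im : ZMod 2) = b2' at *
    generalize (γ'.im : ZMod 2) = c2' at *
    generalize (β'.re : ZMod 2) = b1' at *
    generalize (γ'.re : ZMod 2) = c1' at *
    have e : (-1 : ZMod 2) = 1 := by decide
    have e2 : ∀ x : ZMod 2, x + x = 0 := by decide
    rcases h1 with ⟨r1, r2, r3, r4⟩ | ⟨r1, r2, r3, r4⟩ <;>
    rcases h1' with ⟨s1, s2, s3, s4⟩ | ⟨s1, s2, s3, s4⟩ <;>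
    subst r1 r2 r3 r4 s1 s2 s3 s4
    · left; clear hd hd' hb hc hb' hc'; revert b1 c1 b1' c1'; decide
    · right; clear hd hd' hb hc hb' hc'; revert b1 c1 b2' c2'; decide
    · right; clear hd hd' hb hc hb' hc'; revert b2 c2 b1' c1'; decide
    · left; clear hd hd' hb hc hb' hc'; revert b2 c2 b2' c2'; decide

theorem inGam_inv {g : SL2Gi} (hg : InGam g) : InGam g⁻¹ := by
  rw [inGam_iff] at *
  obtain ⟨β, γ, hb, hc, h1⟩ := hg
  have hd := cls_d hb hc h1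
  refine ⟨-β, -γ, ?_, ?_, ?_⟩
  · simp [Matrix.SpecialLinearGroup.coe_inv, Matrix.adjugate_fin_two, hb]
  · simp [Matrix.SpecialLinearGroup.coe_inv, Matrix.adjugate_fin_two, hc]
  · unfold Cls at *
    simp only [Matrix.SpecialLinearGroup.coe_inv, Matrix.adjugate_fin_two, Matrix.of_apply,
      Matrix.cons_val', Matrix.cons_val_zero, Matrix.cons_val_fin_one, Zsqrtd.re_neg,
      Zsqrtd.im_neg]
    push_cast
    rw [hd.1, hd.2]
    have e : ∀ x : ZMod 2, -x = x := by decide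
    simp only [e]
    exact h1

/-- `InGam` is a subgroup of `SL(2, ℤ[i])`. -/
def Gam : Subgroup SL2Gi where
  carrier := {g | InGam g}
  mul_mem' := inGam_mul
  one_mem' := inGam_one
  inv_mem' := inGam_inv

theorem mem_Gam {g : SL2Gi} : g ∈ Gam ↔ InGam g := Iff.rfl

theorem inGam_subgroup : ∃ Γ : Subgroup SL2Gi, ∀ g, g ∈ Γ ↔ InGam g := ⟨Gam, fun _ => Iff.rfl⟩

theorem inGam_neg {g : SL2Gi} (hg : InGam g) : InGam (-g) := by
  rw [inGam_iff] at *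
  obtain ⟨β, γ, hb, hc, h1⟩ := hg
  refine ⟨-β, -γ, ?_, ?_, ?_⟩
  · simp [hb]
  · simp [hc]
  · unfold Cls at *
    simp only [Matrix.SpecialLinearGroup.coe_neg, Matrix.neg_apply, Zsqrtd.re_neg,
      Zsqrtd.im_neg]
    push_cast
    have e : ∀ x : ZMod 2, -x = x := by decide
    simp only [e]
    exact h1

/-- The trace of an element of `Gam` is even and not zero. -/
theorem trace_ne_zero {g : SL2Gi} (hg : InGam g) : g 0 0 + g 1 1 ≠ 0 := by
  intro htr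
  obtain ⟨β, γ, hb, hc, h1⟩ := hg
  have hd : g 1 1 = -(g 0 0) := by
    rw [← add_eq_zero_iff_eq_neg, add_comm]; exact htr
  have hdet := det_eq g
  rw [hb, hc, hd] at hdet
  have e1 := congrArg Zsqrtd.re hdet
  have e2 := congrArg Zsqrtd.im hdet
  simp only [Zsqrtd.re_sub, Zsqrtd.im_sub, Zsqrtd.re_mul, Zsqrtd.im_mul, Zsqrtd.re_one,
    Zsqrtd.im_one, Zsqrtd.re_neg, Zsqrtd.im_neg] at e1 e2
  generalize (g 0 0).re = a1 at *
  generalize (g 0 0).im = a2 at *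
  generalize β.re = b1 at *
  generalize β.im = b2 at *
  generalize γ.re = c1 at *
  generalize γ.im = c2 at *
  rcases h1 with ⟨r1, r2, r3, r4⟩ | ⟨r1, r2, r3, r4⟩
  · obtain ⟨s, hs⟩ : ∃ s, a1 = 2 * s + 1 := ⟨a1 / 2, by omega⟩
    obtain ⟨t, ht⟩ : ∃ t, a2 = 2 * t := ⟨a2 / 2, by omega⟩
    obtain ⟨u, hu⟩ : ∃ u, b2 = 2 * u := ⟨b2 / 2, by omega⟩
    obtain ⟨v, hv⟩ : ∃ v, c2 = 2 * v := ⟨c2 / 2, by omega⟩
    subst hs ht hu hv
    ring_nf at e1
    omega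
  · obtain ⟨s, hs⟩ : ∃ s, a1 = 2 * s := ⟨a1 / 2, by omega⟩
    obtain ⟨t, ht⟩ : ∃ t, a2 = 2 * t + 1 := ⟨a2 / 2, by omega⟩
    obtain ⟨k, hk⟩ : ∃ k, b1 = 2 * k + 1 := ⟨b1 / 2, by omega⟩
    obtain ⟨m, hm⟩ : ∃ m, c1 = 2 * m + 1 := ⟨c1 / 2, by omega⟩
    -- `b2 * c2` is odd
    have f1 : b2 * c2 = 2 * s * (2 * t + 1) + (2 * k + 1) * (2 * m + 1) := by
      subst hs ht hk hm
      ring_nf at e2 ⊢
      linarith
    have f2 : (b2 * c2) % 2 = 1 := by
      rw [f1]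
      have : 2 * s * (2 * t + 1) + (2 * k + 1) * (2 * m + 1) =
        2 * (s * (2 * t + 1) + 2 * k * m + k + m) + 1 := by ring
      omega
    have f3 : b2 % 2 = 1 ∧ c2 % 2 = 1 := by
      rw [Int.mul_emod] at f2
      rcases Int.emod_two_eq_zero_or_one b2 with h | h <;>
      rcases Int.emod_two_eq_zero_or_one c2 with h' | h' <;> rw [h, h'] at f2 <;> simp_all
    obtain ⟨l, hl⟩ : ∃ l, b2 = 2 * l + 1 := ⟨b2 / 2, by omega⟩
    obtain ⟨n, hn⟩ : ∃ n, c2 = 2 * n + 1 := ⟨c2 / 2, by omega⟩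
    subst hs ht hk hm hl hn
    have g1 : s ^ 2 - t * (t + 1) = 2 * k * n + k + n + 2 * l * m + l + m + 1 := by
      ring_nf at e1 ⊢
      linarith
    have g2 : s + k + m + l + n = 2 * (l * n + l + n - s * t - k * m) := by
      ring_nf at f1 ⊢
      linarith
    obtain ⟨w, hw⟩ : ∃ w, t * (t + 1) = 2 * w := by
      obtain ⟨w, hw⟩ := Int.even_mul_succ_self t
      exact ⟨w, by rw [hw]; ring⟩
    obtain ⟨w', hw'⟩ : ∃ w, s * (s + 1) = 2 * w := by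
      obtain ⟨w, hw⟩ := Int.even_mul_succ_self s
      exact ⟨w, by rw [hw]; ring⟩
    have g3 : s ^ 2 = 2 * w' - s := by linarith [hw', sq s, mul_add s s 1]
    rw [g3, hw] at g1
    have g4 : 2 * (w' - w - k * n - l * m) - 1 = s + k + m + l + n := by linarith
    rw [g2] at g4
    omega

theorem trace_even {g : SL2Gi} (hg : InGam g) :
    (g 0 0 + g 1 1).re % 2 = 0 ∧ (g 0 0 + g 1 1).im % 2 = 0 := by
  rw [inGam_iff] at hg
  obtain ⟨β, γ, hb, hc, h1⟩ := hg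
  have hd := cls_d hb hc h1
  rw [par0, par0]
  simp only [Zsqrtd.re_add, Zsqrtd.im_add]
  push_cast
  rw [hd.1, hd.2]
  have e2 : ∀ x : ZMod 2, x + x = 0 := by decide
  exact ⟨e2 _, e2 _⟩

/-- An element of `Gam` with real trace of absolute value less than two does not exist. -/
theorem trace_not_elliptic {g : SL2Gi} (hg : InGam g) (him : (g 0 0 + g 1 1).im = 0)
    (hlt : |(g 0 0 + g 1 1).re| < 2) : False := by
  have h := (trace_even hg).1
  have h2 : (g 0 0 + g 1 1).re = 0 := by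
    rw [abs_lt] at hlt
    omega
  exact trace_ne_zero hg (Zsqrtd.ext h2 him)

/-- Matrices congruent to `1` modulo `4` belong to `Gam`. -/
theorem inGam_of_mod {g : SL2Gi} (h00 : ∃ x : GaussianInt, g 0 0 = 1 + 4 * x)
    (h01 : ∃ x : GaussianInt, g 0 1 = 4 * x) (h10 : ∃ x : GaussianInt, g 1 0 = 4 * x) :
    InGam g := by
  obtain ⟨x, hx⟩ := h00
  obtain ⟨y, hy⟩ := h01
  obtain ⟨z, hz⟩ := h10
  have e : (4 : GaussianInt) = ⟨1, 1⟩ * (⟨1, -1⟩ * 2) := by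
    ext <;> simp
  refine ⟨⟨1, -1⟩ * 2 * y, ⟨1, -1⟩ * 2 * z, ?_, ?_, Or.inl ?_⟩
  · rw [hy]; nth_rewrite 1 [e]; ring
  · rw [hz]; nth_rewrite 1 [e]; ring
  · rw [hx]
    simp only [Zsqrtd.re_add, Zsqrtd.im_add, Zsqrtd.re_mul, Zsqrtd.im_mul, Zsqrtd.re_one,
      Zsqrtd.im_one, Zsqrtd.re_ofNat, Zsqrtd.im_ofNat]
    refine ⟨?_, ?_, ?_, ?_⟩ <;> push_cast <;> ring_nf <;> omega

end Pool.Agent.Work.MP_f0c219_gt.Borromean
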