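import Pool.Agent.Work.MP_f0c219_gt.MetricDefs
import Pool.Agent.Work.MP_f0c219_gt_h82.Invar

/-!
# The displacement of the holonomy group on the core is bounded below
-/

open Set Topology
open scoped ComplexConjugate

namespace Pool.Agent.Work.MP_f0c219_gt.Model

open Borromean TruncHyp

theorem hC_sub_one' (p q : H3) : ‖p.1.1 - q.1.1‖ ^ 2 + (p.1.2 - q.1.2) ^ 2 =
    2 * p.1.2 * q.1.2 * (hC p.1 q.1 - 1) := by
  have h1 : 0 < p.1.2 := p.2
  have h2 : 0 < q.1.2 := q.2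
  unfold hC
  field_simp
  ring

theorem one_lt_hC {p q : H3} (h : p ≠ q) : 1 < hC p.1 q.1 := by
  have h1 : 0 < p.1.2 := p.2
  have h2 : 0 < q.1.2 := q.2
  have h3 := hC_sub_one' p q
  by_contra hle
  push Not at hle
  have h4 : 2 * p.1.2 * q.1.2 * (hC p.1 q.1 - 1) ≤ 0 := by
    have : 0 < 2 * p.1.2 * q.1.2 := by positivity
    nlinarith
  have h7 : 0 ≤ ‖p.1.1 - q.1.1‖ ^ 2 := by positivity
  have h8 : 0 ≤ (p.1.2 - q.1.2) ^ 2 := by positivity
  have h5 : ‖p.1.1 - q.1.1‖ ^ 2 = 0 := by linarith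
  have h6 : (p.1.2 - q.1.2) ^ 2 = 0 := by linarith
  apply h
  apply Subtype.ext
  apply Prod.ext
  · have := pow_eq_zero_iff (two_ne_zero) |>.1 h5
    exact sub_eq_zero.1 (norm_eq_zero.1 this)
  · have := pow_eq_zero_iff (two_ne_zero) |>.1 h6
    exact sub_eq_zero.1 this

theorem isCompact_box {M : ℝ} (hM : 0 < M) :
    IsCompact {q : H3 | ‖q.1.1‖ ≤ M ∧ M⁻¹ ≤ q.1.2 ∧ q.1.2 ≤ M} := by
  have h1 : IsCompact (Metric.closedBall (0 : ℂ) M ×ˢ Icc (M⁻¹ : ℝ) M) :=
    (isCompact_closedBall 0 M).prod isCompact_Icc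
  have h2 : {q : H3 | ‖q.1.1‖ ≤ M ∧ M⁻¹ ≤ q.1.2 ∧ q.1.2 ≤ M} =
      Subtype.val ⁻¹' (Metric.closedBall (0 : ℂ) M ×ˢ Icc (M⁻¹ : ℝ) M) := by
    ext q
    simp only [Set.mem_ofPred_eq, Set.mem_preimage, Set.mem_prod, Metric.mem_closedBall,
      dist_zero_right, Set.mem_Icc]
  rw [h2]
  refine (Topology.IsInducing.isCompact_preimage_iff Topology.IsInducing.subtypeVal ?_).2 h1
  rintro ⟨z, t⟩ ⟨_, ht⟩
  have ht0 : (0 : ℝ) < t := lt_of_lt_of_le (inv_pos.2 hM) ht.1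
  exact ⟨⟨(z, t), ht0⟩, rfl⟩

theorem neg_one_smul_H3 (q : H3) : (-1 : SL2C) • q = q := by
  have h : (-1 : SL2C) = toC (-1) := by
    apply Subtype.ext
    apply Matrix.ext
    intro i j
    change (-1 : SL2C) i j = toC (-1) i j
    rw [toC_entry]
    fin_cases i <;> fin_cases j <;> simp
  rw [h, neg_toC_smul, map_one, one_smul]

theorem continuous_hC_smul (g : SL2C) : Continuous fun q : H3 => hC q.1 (g • q).1 := by
  have h1 := continuous_smul g
  have a1 : Continuous fun q : H3 => q.1.1 := continuous_fst.comp continuous_subtype_val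
  have a2 : Continuous fun q : H3 => q.1.2 := continuous_snd.comp continuous_subtype_val
  have b1 : Continuous fun q : H3 => (g • q).1.1 := a1.comp h1
  have b2 : Continuous fun q : H3 => (g • q).1.2 := a2.comp h1
  unfold hC
  refine Continuous.div ((((a1.sub b1).norm.pow 2).add (a2.pow 2)).add (b2.pow 2))
    ((continuous_const.mul a2).mul b2) ?_
  intro q
  have h2 : 0 < q.1.2 := q.2
  have h3 : 0 < (g • q).1.2 := (g • q).2
  positivity

/-- Points at bounded distance from a compact set form a bounded set. -/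
theorem exists_compact_nbhd {K : Set H3} (hK : IsCompact K) : ∃ K' : Set H3, IsCompact K' ∧
    K ⊆ K' ∧ ∀ p ∈ K, ∀ q, hC p.1 q.1 ≤ 2 → q ∈ K' := by
  obtain ⟨M, hM, hb⟩ := exists_compact_bound hK
  refine ⟨_, isCompact_box (M := 5 * M) (by positivity), ?_, ?_⟩
  · intro p hp
    obtain ⟨h1, h2, h3⟩ := hb p hp
    refine ⟨by linarith, ?_, by linarith⟩
    rw [inv_le_iff_one_le_mul₀ (by positivity)]
    have : 0 < p.1.2 := p.2
    nlinarith
  · intro p hp q hq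
    obtain ⟨h1, h2, h3⟩ := hb p hp
    have hp0 : 0 < p.1.2 := p.2
    have hq0 : 0 < q.1.2 := q.2
    have h4 : ‖p.1.1 - q.1.1‖ ^ 2 + p.1.2 ^ 2 + q.1.2 ^ 2 ≤ 4 * p.1.2 * q.1.2 := by
      unfold hC at hq
      rw [div_le_iff₀ (by positivity)] at hq
      linarith
    have h5 := sq_nonneg ‖p.1.1 - q.1.1‖
    have h6 : q.1.2 ≤ 4 * p.1.2 := by nlinarith
    have h7 : p.1.2 ≤ 4 * q.1.2 := by nlinarith
    have h8 : ‖p.1.1 - q.1.1‖ ^ 2 ≤ (4 * p.1.2) ^ 2 := by nlinarith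
    have h9 : ‖p.1.1 - q.1.1‖ ≤ 4 * p.1.2 := by
      exact abs_le_of_sq_le_sq' h8 (by positivity) |>.2
    refine ⟨?_, ?_, by linarith⟩
    · have h10 : ‖q.1.1‖ ≤ ‖p.1.1‖ + ‖p.1.1 - q.1.1‖ := by
        have : q.1.1 = p.1.1 - (p.1.1 - q.1.1) := by ring
        calc ‖q.1.1‖ = ‖p.1.1 - (p.1.1 - q.1.1)‖ := by rw [← this]
          _ ≤ _ := norm_sub_le _ _
      linarith
    · rw [inv_le_iff_one_le_mul₀ (by positivity)]
      nlinarith

theorem exists_lower {K : Set H3} (hK : IsCompact K) {g : SL2C} (hg : ∀ q : H3, g • q ≠ q) :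
    ∃ c : ℝ, 1 < c ∧ ∀ q ∈ K, c ≤ hC q.1 (g • q).1 := by
  rcases K.eq_empty_or_nonempty with rfl | hne
  · exact ⟨2, by norm_num, fun q hq => absurd hq (notMem_empty _)⟩
  · obtain ⟨q₀, -, h⟩ := hK.exists_isMinOn hne (continuous_hC_smul g).continuousOn
    exact ⟨_, one_lt_hC (Ne.symm (hg q₀)), fun q hq => h hq⟩

/-- The displacement is bounded below. -/
theorem exists_displacement : ∃ c : ℝ, 1 < c ∧ ∀ g : Bor.Γ, (∀ q : Bor.Core, g • q = q) ∨
    ∀ q : Bor.Core, c ≤ TruncHyp.hC q.1.1 (g • q).1.1 := by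
  obtain ⟨K, hK, hcov⟩ := Bor.cocompact
  obtain ⟨K', hK', hsub, hnear⟩ := exists_compact_nbhd hK
  have hF := Bor.discrete K' hK'
  -- a uniform bound on the compact set
  have hmain : ∃ c : ℝ, 1 < c ∧ ∀ g ∈ Bor.Γ, g ≠ 1 → g ≠ -1 → ∀ q ∈ K, c ≤ hC q.1 (g • q).1 := by
    have hfin : ∀ F : Set SL2C, F.Finite → ∃ c : ℝ, 1 < c ∧ c ≤ 2 ∧ ∀ g ∈ F, g ∈ Bor.Γ →
        g ≠ 1 → g ≠ -1 → ∀ q ∈ K, c ≤ hC q.1 (g • q).1 := by
      intro F hF
      induction F, hF using Set.Finite.induction_on with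
      | empty => exact ⟨2, by norm_num, le_rfl, fun g hg => absurd hg (notMem_empty _)⟩
      | @insert a F ha hF ih =>
        obtain ⟨c, hc1, hc2, hc⟩ := ih
        by_cases hcase : a ∈ Bor.Γ ∧ a ≠ 1 ∧ a ≠ -1
        · obtain ⟨c', hc1', hc'⟩ := exists_lower hK (g := a) (by
            intro q hq
            rcases Bor.free a hcase.1 q hq with h | h
            · exact hcase.2.1 h
            · exact hcase.2.2 h)
          refine ⟨min c c', lt_min hc1 hc1', (min_le_left _ _).trans hc2, ?_⟩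
          rintro g (rfl | hg) hgΓ hg1 hg2 q hq
          · exact (min_le_right _ _).trans (hc' q hq)
          · exact (min_le_left _ _).trans (hc g hg hgΓ hg1 hg2 q hq)
        · refine ⟨c, hc1, hc2, ?_⟩
          rintro g (rfl | hg) hgΓ hg1 hg2 q hq
          · exact absurd ⟨hgΓ, hg1, hg2⟩ hcase
          · exact hc g hg hgΓ hg1 hg2 q hq
    obtain ⟨c, hc1, hc2, hc⟩ := hfin _ hF
    refine ⟨c, hc1, ?_⟩
    intro g hg hg1 hg2 q hq
    by_cases h : hC q.1 (g • q).1 ≤ 2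
    · refine hc g ⟨hg, g • q, ⟨q, hsub hq, rfl⟩, hnear q hq _ h⟩ hg hg1 hg2 q hq
    · linarith
  obtain ⟨c, hc1, hc⟩ := hmain
  refine ⟨c, hc1, ?_⟩
  intro g
  by_cases hg : g.1 = 1 ∨ g.1 = -1
  · left
    intro q
    apply Subtype.ext
    rw [core_smul_val]
    rcases hg with h | h
    · rw [h, one_smul]
    · rw [h, neg_one_smul_H3]
  · right
    push Not at hg
    intro q
    obtain ⟨h, hh, hq⟩ := hcov q.1 q.2
    have h1 := hc (h * g.1 * h⁻¹) (Bor.Γ.mul_mem (Bor.Γ.mul_mem hh g.2) (Bor.Γ.inv_mem hh))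
      (by
        intro h2
        apply hg.1
        have : g.1 = h⁻¹ * (h * g.1 * h⁻¹) * h := by group
        rw [this, h2, mul_one, inv_mul_cancel])
      (by
        intro h2
        apply hg.2
        have : g.1 = h⁻¹ * (h * g.1 * h⁻¹) * h := by group
        rw [this, h2]
        simp) (h • q.1) hq
    have h3 : (h * g.1 * h⁻¹) • (h • q.1) = h • (g.1 • q.1) := by
      rw [← mul_smul, ← mul_smul]
      congr 1
      group
    rw [h3, hC_smul] at h1
    rw [core_smul_val]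
    exact h1

end Pool.Agent.Work.MP_f0c219_gt.Model
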