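import Pool.Agent.Work.MP_f0c219_gt_h72.Arith

/-!
# Block G, part 2: the action on upper half space
-/

open Set Topology
open scoped ComplexConjugate

namespace Pool.Agent.Work.MP_f0c219_gt.Borromean

/-! ## The action of `SL(2, ℂ)` -/

theorem smul_height (g : SL2C) (q : H3) : (g • q).1.2 = q.1.2 / den g q := rfl

theorem smul_z (g : SL2C) (q : H3) : (g • q).1.1 =
    ((g 0 0 * q.1.1 + g 0 1) * (starRingEnd ℂ) (g 1 0 * q.1.1 + g 1 1) +
      g 0 0 * (starRingEnd ℂ) (g 1 0) * (q.1.2 : ℂ) ^ 2) / (den g q : ℂ) := rfl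

theorem detC (g : SL2C) : g 0 0 * g 1 1 - g 0 1 * g 1 0 = 1 := by
  have := g.det_coe
  rwa [Matrix.det_fin_two] at this

theorem continuous_den (g : SL2C) : Continuous (den g) := by
  unfold den
  have := Complex.continuous_normSq
  fun_prop

theorem continuous_smul (g : SL2C) : Continuous (fun q : H3 => g • q) := by
  refine Continuous.subtype_mk ?_ _
  refine Continuous.prodMk ?_ ?_
  · refine Continuous.div ?_ ?_ ?_
    · fun_prop
    · exact Complex.continuous_ofReal.comp (continuous_den g)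
    · intro q
      exact_mod_cast (den_pos g q).ne'
  · refine Continuous.div ?_ (continuous_den g) ?_
    · fun_prop
    · intro q
      exact (den_pos g q).ne'

instance : ContinuousConstSMul SL2C H3 := ⟨continuous_smul⟩

theorem den_inv (g : SL2C) (q : H3) : den g⁻¹ (g • q) * den g q = 1 := by
  have h := congrArg (fun r : H3 => r.1.2) (inv_smul_smul g q)
  simp only [smul_height] at h
  have h1 := den_pos g q
  have h2 := den_pos g⁻¹ (g • q)
  have h3 : 0 < q.1.2 := q.2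
  rw [div_div, div_eq_iff (by positivity)] at h
  have : q.1.2 * (den g⁻¹ (g • q) * den g q - 1) = 0 := by linarith
  rcases mul_eq_zero.1 this with h4 | h4
  · exact absurd h4 h3.ne'
  · linarith

theorem inv_entries (g : SL2C) : g⁻¹ 0 0 = g 1 1 ∧ g⁻¹ 0 1 = -g 0 1 ∧ g⁻¹ 1 0 = -g 1 0 ∧
    g⁻¹ 1 1 = g 0 0 := by
  refine ⟨?_, ?_, ?_, ?_⟩ <;> simp [Matrix.SpecialLinearGroup.coe_inv, Matrix.adjugate_fin_two]

theorem mul_entries (g h : SL2C) : (g * h) 0 0 = g 0 0 * h 0 0 + g 0 1 * h 1 0 ∧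
    (g * h) 0 1 = g 0 0 * h 0 1 + g 0 1 * h 1 1 ∧ (g * h) 1 0 = g 1 0 * h 0 0 + g 1 1 * h 1 0 ∧
    (g * h) 1 1 = g 1 0 * h 0 1 + g 1 1 * h 1 1 := by
  refine ⟨?_, ?_, ?_, ?_⟩ <;>
    simp [Matrix.SpecialLinearGroup.coe_mul, Matrix.mul_apply, Fin.sum_univ_two]

/-- The relation between the image and the lower row. -/
theorem smul_z_sub (g : SL2C) (q : H3) : g 1 0 * (g • q).1.1 * den g q =
    g 0 0 * den g q - conj (g 1 0 * q.1.1 + g 1 1) := by
  have hdet := detC g
  have hD : (den g q : ℂ) ≠ 0 := by exact_mod_cast (den_pos g q).ne'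
  have hden' : (den g q : ℂ) = conj (g 1 0 * q.1.1 + g 1 1) * (g 1 0 * q.1.1 + g 1 1) +
      conj (g 1 0) * g 1 0 * q.1.2 ^ 2 := by
    unfold den
    push_cast
    simp only [Complex.normSq_eq_conj_mul_self]
  rw [smul_z, mul_assoc, div_mul_cancel₀ _ hD, hden']
  linear_combination (-conj (g 1 0 * q.1.1 + g 1 1)) * hdet

/-- An element with a fixed point has real trace in `(-2, 2)` or is `1` or `-1`. -/
theorem fixed_point (g : SL2C) (q : H3) (h : g • q = q) :
    ((g 0 0 + g 1 1).im = 0 ∧ |(g 0 0 + g 1 1).re| < 2) ∨ g = 1 ∨ g = -1 := by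
  have ht : 0 < q.1.2 := q.2
  have hden : den g q = 1 := by
    have := smul_height g q
    rw [h] at this
    have h2 := den_pos g q
    rw [eq_div_iff h2.ne'] at this
    have : q.1.2 * (den g q - 1) = 0 := by linarith
    rcases mul_eq_zero.1 this with h4 | h4
    · exact absurd h4 ht.ne'
    · linarith
  have hz := smul_z_sub g q
  rw [h, hden] at hz
  simp only [Complex.ofReal_one, mul_one] at hz
  set u := g 1 0 * q.1.1 + g 1 1 with hu
  have htr : g 0 0 + g 1 1 = u + conj u := by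
    rw [hu] at hz ⊢
    linear_combination -hz
  have hn : Complex.normSq u + Complex.normSq (g 1 0) * q.1.2 ^ 2 = 1 := hden
  have hre : (g 0 0 + g 1 1).re = 2 * u.re := by
    rw [htr]; simp; ring
  have him : (g 0 0 + g 1 1).im = 0 := by
    rw [htr]; simp
  have hun : u.re * u.re + u.im * u.im = Complex.normSq u := (Complex.normSq_apply u).symm
  by_cases hlt : |(g 0 0 + g 1 1).re| < 2
  · exact Or.inl ⟨him, hlt⟩
  · right
    rw [hre] at hlt
    push Not at hlt
    have hsq : 1 ≤ u.re ^ 2 := by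
      have h1 : 2 ≤ |2 * u.re| := hlt
      rw [abs_mul, abs_two] at h1
      have h2 : 1 ≤ |u.re| := by linarith
      have h3 : 1 ≤ |u.re| ^ 2 := by nlinarith
      rwa [sq_abs] at h3
    have hc0 : Complex.normSq (g 1 0) * q.1.2 ^ 2 = 0 := by
      have := Complex.normSq_nonneg (g 1 0)
      nlinarith [mul_self_nonneg u.im, mul_nonneg this (sq_nonneg q.1.2)]
    have hc : g 1 0 = 0 := by
      rcases mul_eq_zero.1 hc0 with h1 | h1
      · exact Complex.normSq_eq_zero.1 h1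
      · exact absurd h1 (by positivity)
    have him0 : u.im = 0 := by
      have : u.im * u.im = 0 := by nlinarith [mul_self_nonneg u.im]
      exact mul_self_eq_zero.1 this
    have hre1 : u.re ^ 2 = 1 := by
      rw [hc0] at hn
      nlinarith
    have hud : g 1 1 = u := by rw [hu, hc]; ring
    have hur : u = (u.re : ℂ) := Complex.ext (by simp) (by simp [him0])
    have hur2 : u * u = 1 := by
      rw [hur]
      exact_mod_cast (by rw [← sq]; exact hre1 : u.re * u.re = 1)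
    have hdet := detC g
    rw [hc, mul_zero, sub_zero, hud] at hdet
    have ha : g 0 0 = u := by
      have : g 0 0 * u * u = 1 * u := by rw [hdet]
      rw [mul_assoc, hur2, mul_one, one_mul] at this
      exact this
    have hcu : conj u = u := by rw [hur]; simp
    have hb : g 0 1 = 0 := by
      have h1 := smul_z g q
      rw [h, hden, hc, ha] at h1
      simp only [map_zero, mul_zero, zero_mul, zero_add, add_zero, Complex.ofReal_one,
        div_one, hud, hcu] at h1
      have h2 : g 0 1 * u = 0 := by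
        linear_combination -h1 + q.1.1 * (-hur2)
      have hu0 : u ≠ 0 := by
        intro h0; rw [h0] at hur2; simp at hur2
      exact (mul_eq_zero.1 h2).resolve_right hu0
    have hu1 : u = 1 ∨ u = -1 := mul_self_eq_one_iff.1 hur2
    rcases hu1 with h1 | h1
    · left
      ext i j
      fin_cases i <;> fin_cases j <;> simp [ha, hb, hc, hud, h1]
    · right
      ext i j
      fin_cases i <;> fin_cases j <;> simp [ha, hb, hc, hud, h1]

/-! ## The action of `SL(2, ℤ[i])` -/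

theorem toC_entry (γ : SL2Gi) (i j : Fin 2) : toC γ i j = GaussianInt.toComplex (γ i j) := rfl

theorem toC_injective : Function.Injective toC := by
  intro g h hgh
  apply Subtype.ext
  apply Matrix.ext
  intro i j
  have := congrArg (fun x : SL2C => x i j) hgh
  simp only [toC_entry] at this
  exact GaussianInt.toComplex_injective this

theorem normSq_ge_one {x : GaussianInt} (hx : x ≠ 0) : 1 ≤ Complex.normSq (GaussianInt.toComplex x) := by
  rw [← GaussianInt.intCast_real_norm]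
  have := GaussianInt.norm_pos.2 hx
  exact_mod_cast this

/-- Lower left entry zero: the height is preserved. -/
theorem den_of_c_eq_zero {γ : SL2Gi} (hc : γ 1 0 = 0) (q : H3) : den (toC γ) q = 1 := by
  have hdet := det_eq γ
  rw [hc, mul_zero, sub_zero] at hdet
  have h1 := congrArg Zsqrtd.norm hdet
  rw [Zsqrtd.norm_mul, Zsqrtd.norm_one] at h1
  have h2 : (γ 1 1).norm = 1 := by
    have ha := GaussianInt.norm_nonneg (γ 0 0)
    have hd := GaussianInt.norm_nonneg (γ 1 1)
    have h3 : (γ 1 1).norm ∣ 1 := ⟨(γ 0 0).norm, by linarith⟩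
    exact Int.eq_one_of_dvd_one hd h3
  unfold den
  rw [toC_entry, toC_entry, hc, map_zero, zero_mul, zero_add, map_zero, zero_mul, add_zero,
    ← GaussianInt.intCast_real_norm, h2]
  simp

theorem height_of_c_eq_zero {γ : SL2Gi} (hc : γ 1 0 = 0) (q : H3) :
    (toC γ • q).1.2 = q.1.2 := by
  rw [smul_height, den_of_c_eq_zero hc, div_one]

theorem height_of_c_ne_zero {γ : SL2Gi} (hc : γ 1 0 ≠ 0) (q : H3) :
    (toC γ • q).1.2 * q.1.2 ≤ 1 := by
  have ht : 0 < q.1.2 := q.2
  rw [smul_height, div_mul_eq_mul_div, div_le_one (den_pos _ _)]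
  unfold den
  have h1 := normSq_ge_one hc
  have h2 := Complex.normSq_nonneg ((toC γ) 1 0 * q.1.1 + (toC γ) 1 1)
  rw [toC_entry] at *
  nlinarith [sq_nonneg q.1.2, mul_pos ht ht]

/-! ## Freeness -/

theorem gam_free {γ : SL2Gi} (hγ : InGam γ) (q : H3) (h : toC γ • q = q) :
    toC γ = 1 ∨ toC γ = -1 := by
  rcases fixed_point _ _ h with ⟨h1, h2⟩ | h3
  · exfalso
    rw [toC_entry, toC_entry, ← map_add] at h1 h2
    rw [← GaussianInt.intCast_im] at h1
    rw [← GaussianInt.intCast_re] at h2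
    exact trace_not_elliptic hγ (by exact_mod_cast h1) (by exact_mod_cast h2)
  · exact h3

/-! ## Finiteness -/

theorem finite_bounded (M : ℝ) : {x : GaussianInt | ‖GaussianInt.toComplex x‖ ≤ M}.Finite := by
  have hfin : ((Set.Icc (-⌈M⌉) ⌈M⌉ : Set ℤ) ×ˢ (Set.Icc (-⌈M⌉) ⌈M⌉ : Set ℤ)).Finite :=
    (Set.finite_Icc _ _).prod (Set.finite_Icc _ _)
  refine Set.Finite.subset (hfin.image (fun p : ℤ × ℤ => (⟨p.1, p.2⟩ : GaussianInt))) ?_
  intro x hx
  have h1 := Complex.abs_re_le_norm (GaussianInt.toComplex x)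
  have h2 := Complex.abs_im_le_norm (GaussianInt.toComplex x)
  rw [← GaussianInt.intCast_re] at h1
  rw [← GaussianInt.intCast_im] at h2
  have hM := Int.le_ceil M
  have hx' : ‖GaussianInt.toComplex x‖ ≤ M := hx
  have h3 : |(x.re : ℝ)| ≤ (⌈M⌉ : ℝ) := by linarith
  have h4 : |(x.im : ℝ)| ≤ (⌈M⌉ : ℝ) := by linarith
  rw [abs_le] at h3 h4
  refine ⟨(x.re, x.im), ⟨⟨?_, ?_⟩, ?_, ?_⟩, rfl⟩
  · exact_mod_cast h3.1
  · exact_mod_cast h3.2
  · exact_mod_cast h4.1
  · exact_mod_cast h4.2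

theorem finite_bounded_matrices (M : ℝ) : {γ : SL2Gi | ∀ i j, ‖toC γ i j‖ ≤ M}.Finite := by
  have h1 : {f : Fin 2 → Fin 2 → GaussianInt | ∀ i j, ‖GaussianInt.toComplex (f i j)‖ ≤ M}.Finite := by
    have := Set.Finite.pi' (fun _ : Fin 2 => Set.Finite.pi' (fun _ : Fin 2 => finite_bounded M))
    refine this.subset ?_
    intro f hf i j
    exact hf i j
  refine Set.Finite.of_finite_image (f := fun γ : SL2Gi => (fun i j => γ i j)) ?_ ?_
  · refine h1.subset ?_
    rintro _ ⟨γ, hγ, rfl⟩ i j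
    exact hγ i j
  · intro γ _ γ' _ h
    apply Subtype.ext
    apply Matrix.ext
    intro i j
    exact congrFun (congrFun h i) j

theorem norm_le_of_normSq {z : ℂ} {M : ℝ} (hM : 0 ≤ M) (h : Complex.normSq z ≤ M ^ 2) : ‖z‖ ≤ M := by
  rw [Complex.normSq_eq_norm_sq] at h
  exact abs_le_of_sq_le_sq' h hM |>.2 |> fun h => h

/-- Bounds for the lower row. -/
theorem lower_row_bound (g : SL2C) (q : H3) {M : ℝ} (hM : 1 ≤ M) (hz : ‖q.1.1‖ ≤ M)
    (ht : 1 ≤ M * q.1.2) (hden : den g q ≤ M ^ 2) : ‖g 1 0‖ ≤ M ^ 2 ∧ ‖g 1 1‖ ≤ M ^ 3 + M := by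
  have hq : 0 < q.1.2 := q.2
  unfold den at hden
  have h1 := Complex.normSq_nonneg (g 1 0 * q.1.1 + g 1 1)
  have h2 := Complex.normSq_nonneg (g 1 0)
  have hc : ‖g 1 0‖ ≤ M ^ 2 := by
    apply norm_le_of_normSq (by positivity)
    have h3 : 1 ≤ (M * q.1.2) ^ 2 := by nlinarith
    calc Complex.normSq (g 1 0) ≤ Complex.normSq (g 1 0) * (M * q.1.2) ^ 2 := by nlinarith
      _ = M ^ 2 * (Complex.normSq (g 1 0) * q.1.2 ^ 2) := by ring
      _ ≤ M ^ 2 * M ^ 2 := by
          apply mul_le_mul_of_nonneg_left _ (by positivity)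
          linarith
      _ = (M ^ 2) ^ 2 := by ring
  refine ⟨hc, ?_⟩
  have hu : ‖g 1 0 * q.1.1 + g 1 1‖ ≤ M := by
    apply norm_le_of_normSq (by positivity)
    nlinarith [mul_nonneg h2 (sq_nonneg q.1.2)]
  calc ‖g 1 1‖ = ‖(g 1 0 * q.1.1 + g 1 1) - g 1 0 * q.1.1‖ := by ring_nf
    _ ≤ ‖g 1 0 * q.1.1 + g 1 1‖ + ‖g 1 0 * q.1.1‖ := norm_sub_le _ _
    _ ≤ M + M ^ 2 * M := by
        rw [norm_mul]
        have := mul_le_mul hc hz (norm_nonneg _) (by positivity)
        linarith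
    _ = M ^ 3 + M := by ring

theorem entries_bound (g : SL2C) (q : H3) {M : ℝ} (hM : 1 ≤ M) (hz : ‖q.1.1‖ ≤ M)
    (ht : 1 ≤ M * q.1.2) (ht2 : q.1.2 ≤ M) (hz' : ‖(g • q).1.1‖ ≤ M)
    (ht' : 1 ≤ M * (g • q).1.2) (ht2' : (g • q).1.2 ≤ M) :
    ∀ i j, ‖g i j‖ ≤ 4 * M ^ 4 := by
  have hq : 0 < q.1.2 := q.2
  have hden : den g q ≤ M ^ 2 := by
    rw [smul_height] at ht'
    have h1 := den_pos g q
    rw [← mul_div_assoc, le_div_iff₀ h1] at ht'
    nlinarith
  have hden' : den g⁻¹ (g • q) ≤ M ^ 2 := by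
    have h1 := den_pos g q
    have h2 := den_inv g q
    have h3 : den g⁻¹ (g • q) = 1 / den g q := by field_simp; linarith
    have h4 : (g • q).1.2 * den g q = q.1.2 := by
      rw [smul_height]; field_simp
    rw [h3, div_le_iff₀ h1]
    have h5 : 0 < (g • q).1.2 := (g • q).2
    -- 1 ≤ M * q.2 = M * height' * den ≤ M^2 den
    calc (1 : ℝ) ≤ M * q.1.2 := ht
      _ = M * ((g • q).1.2 * den g q) := by rw [h4]
      _ ≤ M ^ 2 * den g q := by nlinarith [mul_le_mul_of_nonneg_right ht2' h1.le]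
  have hb1 := lower_row_bound g q hM hz ht hden
  have hb2 := lower_row_bound g⁻¹ (g • q) hM hz' ht' hden'
  obtain ⟨i1, i2, i3, i4⟩ := inv_entries g
  rw [i3, i4, norm_neg] at hb2
  have hM2 : M ^ 2 ≤ M ^ 4 := pow_le_pow_right₀ hM (by norm_num)
  have hM3 : M ^ 3 ≤ M ^ 4 := pow_le_pow_right₀ hM (by norm_num)
  have hM1 : M ≤ M ^ 4 := by
    calc M = M ^ 1 := by ring
      _ ≤ M ^ 4 := pow_le_pow_right₀ hM (by norm_num)
  have hM0 : 1 ≤ M ^ 4 := one_le_pow₀ hM
  have hb : ‖g 0 1‖ ≤ 4 * M ^ 4 := by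
    -- z' * (c z + d) = a z + b - stuff; use the lagrange identity
    have hl := lagrange g q.1.1 q.1.2
    have h1 := den_pos g q
    have hD : (den g q : ℂ) ≠ 0 := by exact_mod_cast (den_pos g q).ne'
    have hnum : (g 0 0 * q.1.1 + g 0 1) * (starRingEnd ℂ) (g 1 0 * q.1.1 + g 1 1) +
      g 0 0 * (starRingEnd ℂ) (g 1 0) * (q.1.2 : ℂ) ^ 2 = (g • q).1.1 * den g q := by
      rw [smul_z, div_mul_cancel₀ _ hD]
    rw [hnum, Complex.normSq_mul, Complex.normSq_ofReal] at hl
    change _ * den g q = _ at hl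
    have h3 : Complex.normSq (g 0 0 * q.1.1 + g 0 1) ≤ (2 * M ^ 2) ^ 2 := by
      have h4 : (g • q).1.2 * den g q = q.1.2 := by
        rw [smul_height]; field_simp
      have h5 : (Complex.normSq (g 0 0 * q.1.1 + g 0 1) + Complex.normSq (g 0 0) * q.1.2 ^ 2) =
          Complex.normSq (g • q).1.1 * den g q + (g • q).1.2 * q.1.2 := by
        have : (Complex.normSq (g 0 0 * q.1.1 + g 0 1) + Complex.normSq (g 0 0) * q.1.2 ^ 2) * den g q =
          (Complex.normSq (g • q).1.1 * den g q + (g • q).1.2 * q.1.2) * den g q := by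
          rw [hl]
          linear_combination -q.1.2 * h4
        exact mul_right_cancel₀ h1.ne' this
      have h6 : Complex.normSq (g • q).1.1 ≤ M ^ 2 := by
        rw [Complex.normSq_eq_norm_sq]
        exact pow_le_pow_left₀ (norm_nonneg _) hz' 2
      have h7 := Complex.normSq_nonneg (g 0 0)
      have h8 : 0 < (g • q).1.2 := (g • q).2
      calc Complex.normSq (g 0 0 * q.1.1 + g 0 1) ≤ Complex.normSq (g • q).1.1 * den g q + (g • q).1.2 * q.1.2 := by
            rw [← h5]; nlinarith [mul_nonneg h7 (sq_nonneg q.1.2)]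
        _ ≤ M ^ 2 * M ^ 2 + M * M := by
            apply add_le_add
            · exact mul_le_mul h6 hden h1.le (by positivity)
            · exact mul_le_mul ht2' ht2 hq.le (by positivity)
        _ ≤ (2 * M ^ 2) ^ 2 := by nlinarith
    have h4 : ‖g 0 0 * q.1.1 + g 0 1‖ ≤ 2 * M ^ 2 := norm_le_of_normSq (by positivity) h3
    calc ‖g 0 1‖ = ‖(g 0 0 * q.1.1 + g 0 1) - g 0 0 * q.1.1‖ := by ring_nf
      _ ≤ ‖g 0 0 * q.1.1 + g 0 1‖ + ‖g 0 0 * q.1.1‖ := norm_sub_le _ _
      _ ≤ 2 * M ^ 2 + (M ^ 3 + M) * M := by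
          rw [norm_mul]
          have := mul_le_mul hb2.2 hz (norm_nonneg _) (by positivity)
          linarith
      _ ≤ 2 * M ^ 4 + M ^ 4 + M ^ 4 := by nlinarith
      _ ≤ _ := by
          nlinarith
  intro i j
  fin_cases i <;> fin_cases j
  · change ‖g 0 0‖ ≤ _; linarith [hb2.2]
  · exact hb
  · change ‖g 1 0‖ ≤ _; linarith [hb1.1]
  · change ‖g 1 1‖ ≤ _; linarith [hb1.2]

end Pool.Agent.Work.MP_f0c219_gt.Borromean
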