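import Pool.Agent.Work.MP_f0c219_gt_h72.Geom

/-!
# Block G, part 3: reduction theory, discreteness, the cusps
-/

open Set Topology
open scoped ComplexConjugate

namespace Pool.Agent.Work.MP_f0c219_gt.Borromean

theorem exists_compact_bound {K : Set H3} (hK : IsCompact K) : ∃ M : ℝ, 1 ≤ M ∧
    ∀ q ∈ K, ‖q.1.1‖ ≤ M ∧ 1 ≤ M * q.1.2 ∧ q.1.2 ≤ M := by
  have hc : Continuous (fun q : H3 => 1 / q.1.2) := by
    refine Continuous.div continuous_const (by fun_prop) ?_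
    intro q
    exact q.2.ne'
  obtain ⟨M₁, h₁⟩ := hK.exists_bound_of_continuousOn (f := fun q : H3 => q.1.1) (by fun_prop)
  obtain ⟨M₂, h₂⟩ := hK.exists_bound_of_continuousOn (f := fun q : H3 => q.1.2) (by fun_prop)
  obtain ⟨M₃, h₃⟩ := hK.exists_bound_of_continuousOn (f := fun q : H3 => 1 / q.1.2)
    hc.continuousOn
  refine ⟨max 1 (max M₁ (max M₂ M₃)), le_max_left _ _, ?_⟩
  intro q hq
  have hpos : 0 < q.1.2 := q.2
  refine ⟨?_, ?_, ?_⟩
  · exact (h₁ q hq).trans ((le_max_left _ _).trans (le_max_right _ _))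
  · have h4 := h₃ q hq
    rw [Real.norm_eq_abs, abs_of_pos (by positivity), div_le_iff₀ hpos] at h4
    have h5 : M₃ ≤ max 1 (max M₁ (max M₂ M₃)) :=
      (le_max_right _ _).trans ((le_max_right _ _).trans (le_max_right _ _))
    nlinarith
  · have h4 := h₂ q hq
    rw [Real.norm_eq_abs, abs_of_pos hpos] at h4
    exact h4.trans ((le_max_left _ _).trans ((le_max_right _ _).trans (le_max_right _ _)))

theorem finite_meet {K : Set H3} (hK : IsCompact K) :
    {γ : SL2Gi | (((fun q => toC γ • q) '' K) ∩ K).Nonempty}.Finite := by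
  obtain ⟨M, hM, hb⟩ := exists_compact_bound hK
  refine (finite_bounded_matrices (4 * M ^ 4)).subset ?_
  rintro γ ⟨_, ⟨q, hq, rfl⟩, hq'⟩
  obtain ⟨h1, h2, h3⟩ := hb q hq
  obtain ⟨h1', h2', h3'⟩ := hb _ hq'
  exact entries_bound (toC γ) q hM h1 h2 h3 h1' h2' h3'

theorem den_mul (g h : SL2C) (q : H3) : den (g * h) q = den g (h • q) * den h q := by
  have h1 : ((g * h) • q).1.2 = (g • (h • q)).1.2 := by rw [mul_smul]
  rw [smul_height, smul_height, smul_height, div_div] at h1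
  have hq : 0 < q.1.2 := q.2
  have d1 := den_pos (g * h) q
  have d2 := den_pos g (h • q)
  have d3 := den_pos h q
  rw [div_eq_div_iff d1.ne' (by positivity)] at h1
  have := mul_left_cancel₀ hq.ne' h1
  rw [← this]; ring

/-- The inversion `(0 -1; 1 0)`. -/
def S : SL2Gi := ⟨!![0, -1; 1, 0], by simp [Matrix.det_fin_two]⟩

/-- The translation `(1 w; 0 1)`. -/
def Tr (w : GaussianInt) : SL2Gi := ⟨!![1, w; 0, 1], by simp [Matrix.det_fin_two]⟩

theorem Tr_smul (w : GaussianInt) (q : H3) :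
    toC (Tr w) • q = translate (GaussianInt.toComplex w) q := by
  have h00 : toC (Tr w) 0 0 = 1 := by rw [toC_entry]; simp [Tr]
  have h01 : toC (Tr w) 0 1 = GaussianInt.toComplex w := by rw [toC_entry]; simp [Tr]
  have h10 : toC (Tr w) 1 0 = 0 := by rw [toC_entry]; simp [Tr]
  have h11 : toC (Tr w) 1 1 = 1 := by rw [toC_entry]; simp [Tr]
  have hd : den (toC (Tr w)) q = 1 := by
    unfold den; rw [h10, h11]; simp
  apply Subtype.ext
  apply Prod.ext
  · rw [smul_z, hd, h00, h01, h10, h11]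
    simp [translate]
  · rw [smul_height, hd]
    simp [translate]

theorem den_S (q : H3) : den (toC S) q = Complex.normSq q.1.1 + q.1.2 ^ 2 := by
  have h10 : toC S 1 0 = 1 := by rw [toC_entry]; simp [S]
  have h11 : toC S 1 1 = 0 := by rw [toC_entry]; simp [S]
  unfold den; rw [h10, h11]; simp

/-- There is a representative of maximal height. -/
theorem exists_max_height (q : H3) : ∃ γ₀ : SL2Gi, ∀ γ : SL2Gi,
    den (toC γ₀) q ≤ den (toC γ) q := by
  obtain ⟨M, hM, hb⟩ := exists_compact_bound (isCompact_singleton (x := q))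
  obtain ⟨b1, b2, b3⟩ := hb q rfl
  let A : Set (GaussianInt × GaussianInt) :=
    {p | ∃ γ : SL2Gi, γ 1 0 = p.1 ∧ γ 1 1 = p.2 ∧ den (toC γ) q ≤ 1}
  let f : GaussianInt × GaussianInt → ℝ := fun p =>
    Complex.normSq (GaussianInt.toComplex p.1 * q.1.1 + GaussianInt.toComplex p.2) +
      Complex.normSq (GaussianInt.toComplex p.1) * q.1.2 ^ 2
  have hA : A.Finite := by
    refine ((finite_bounded (M ^ 2)).prod (finite_bounded (M ^ 3 + M))).subset ?_
    rintro ⟨c, d⟩ ⟨γ, rfl, rfl, hden⟩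
    have hden' : den (toC γ) q ≤ M ^ 2 := by nlinarith
    have := lower_row_bound (toC γ) q hM b1 b2 hden'
    exact ⟨this.1, this.2⟩
  have hA1 : ((0 : GaussianInt), (1 : GaussianInt)) ∈ A := by
    refine ⟨1, by simp, by simp, ?_⟩
    rw [map_one]
    unfold den
    simp
  obtain ⟨⟨c, d⟩, ⟨γ₀, hc, hd, hle⟩, hmin⟩ := Set.exists_min_image A f hA ⟨_, hA1⟩
  have hf : f (c, d) = den (toC γ₀) q := by
    simp only [f, den, toC_entry]
    rw [hc, hd]
  refine ⟨γ₀, fun γ => ?_⟩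
  by_cases h : den (toC γ) q ≤ 1
  · have := hmin (γ 1 0, γ 1 1) ⟨γ, rfl, rfl, h⟩
    rw [hf] at this
    exact this
  · push Not at h
    linarith

theorem reduction (q : H3) : ∃ γ : SL2Gi, ‖(toC γ • q).1.1‖ ≤ 1 ∧ 1 / 2 ≤ (toC γ • q).1.2 := by
  obtain ⟨γ₀, hγ₀⟩ := exists_max_height q
  set r := toC γ₀ • q with hr
  let w : GaussianInt := ⟨-round r.1.1.re, -round r.1.1.im⟩
  have hγ : ∀ γ : SL2Gi, den (toC (Tr w * γ₀)) q ≤ den (toC γ) q := by
    intro γ
    have : den (toC (Tr w * γ₀)) q = den (toC γ₀) q := by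
      rw [map_mul, den_mul, den_of_c_eq_zero (by simp [Tr]), one_mul]
    rw [this]
    exact hγ₀ γ
  have hr1 : toC (Tr w * γ₀) • q = translate (GaussianInt.toComplex w) r := by
    rw [map_mul, mul_smul, Tr_smul]
  refine ⟨Tr w * γ₀, ?_, ?_⟩
  all_goals
    have hz : (toC (Tr w * γ₀) • q).1.1 = r.1.1 + GaussianInt.toComplex w := by
      rw [hr1]; rfl
    have hre : |(toC (Tr w * γ₀) • q).1.1.re| ≤ 1 / 2 := by
      rw [hz, Complex.add_re, ← GaussianInt.intCast_re]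
      have := abs_sub_round r.1.1.re
      simpa [w, sub_eq_add_neg] using this
    have him : |(toC (Tr w * γ₀) • q).1.1.im| ≤ 1 / 2 := by
      rw [hz, Complex.add_im, ← GaussianInt.intCast_im]
      have := abs_sub_round r.1.1.im
      simpa [w, sub_eq_add_neg] using this
    have hns : Complex.normSq (toC (Tr w * γ₀) • q).1.1 ≤ 1 / 2 := by
      rw [Complex.normSq_apply]
      rw [abs_le] at hre him
      nlinarith
  · apply norm_le_of_normSq (by norm_num)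
    linarith
  · have h1 := hγ (S * (Tr w * γ₀))
    rw [map_mul toC S, den_mul, den_S] at h1
    have h2 := den_pos (toC (Tr w * γ₀)) q
    have h3 : 1 ≤ Complex.normSq (toC (Tr w * γ₀) • q).1.1 + (toC (Tr w * γ₀) • q).1.2 ^ 2 := by
      by_contra h
      push Not at h
      nlinarith
    have h4 : 0 < (toC (Tr w * γ₀) • q).1.2 := (toC (Tr w * γ₀) • q).2
    nlinarith

/-! ## Finite index -/

/-- Residues modulo four. -/
def res (γ : SL2Gi) : Fin 2 → Fin 2 → ZMod 4 × ZMod 4 :=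
  fun i j => (((γ i j).re : ZMod 4), ((γ i j).im : ZMod 4))

theorem res_eq {γ ρ : SL2Gi} (h : res γ = res ρ) (i j : Fin 2) :
    ∃ x : GaussianInt, γ i j = ρ i j + 4 * x := by
  have h1 := congrFun (congrFun h i) j
  simp only [res, Prod.mk.injEq] at h1
  obtain ⟨h2, h3⟩ := h1
  rw [ZMod.intCast_eq_intCast_iff_dvd_sub] at h2 h3
  obtain ⟨u, hu⟩ := h2
  obtain ⟨v, hv⟩ := h3
  refine ⟨⟨-u, -v⟩, ?_⟩
  push_cast at hu hv
  apply Zsqrtd.ext
  · simp only [Zsqrtd.re_add, Zsqrtd.re_mul, Zsqrtd.re_ofNat, Zsqrtd.im_ofNat]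
    push_cast
    linarith
  · simp only [Zsqrtd.im_add, Zsqrtd.im_mul, Zsqrtd.re_ofNat, Zsqrtd.im_ofNat]
    push_cast
    linarith

theorem inv_entriesG (g : SL2Gi) : g⁻¹ 0 0 = g 1 1 ∧ g⁻¹ 0 1 = -g 0 1 ∧ g⁻¹ 1 0 = -g 1 0 ∧
    g⁻¹ 1 1 = g 0 0 := by
  refine ⟨?_, ?_, ?_, ?_⟩ <;> simp [Matrix.SpecialLinearGroup.coe_inv, Matrix.adjugate_fin_two]

theorem mul_entriesG (g h : SL2Gi) : (g * h) 0 0 = g 0 0 * h 0 0 + g 0 1 * h 1 0 ∧
    (g * h) 0 1 = g 0 0 * h 0 1 + g 0 1 * h 1 1 ∧ (g * h) 1 0 = g 1 0 * h 0 0 + g 1 1 * h 1 0 ∧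
    (g * h) 1 1 = g 1 0 * h 0 1 + g 1 1 * h 1 1 := by
  refine ⟨?_, ?_, ?_, ?_⟩ <;>
    simp [Matrix.SpecialLinearGroup.coe_mul, Matrix.mul_apply, Fin.sum_univ_two]

theorem inGam_of_res {γ ρ : SL2Gi} (h : res γ = res ρ) : InGam (ρ⁻¹ * γ) := by
  obtain ⟨x1, h1⟩ := res_eq h 0 0
  obtain ⟨x2, h2⟩ := res_eq h 0 1
  obtain ⟨x3, h3⟩ := res_eq h 1 0
  obtain ⟨x4, h4⟩ := res_eq h 1 1
  obtain ⟨i1, i2, i3, i4⟩ := inv_entriesG ρ
  obtain ⟨m1, m2, m3, m4⟩ := mul_entriesG ρ⁻¹ γ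
  have hdet := det_eq ρ
  apply inGam_of_mod
  · refine ⟨ρ 1 1 * x1 - ρ 0 1 * x3, ?_⟩
    rw [m1, i1, i2, h1, h3]
    linear_combination hdet
  · refine ⟨ρ 1 1 * x2 - ρ 0 1 * x4, ?_⟩
    rw [m2, i1, i2, h2, h4]
    ring
  · refine ⟨ρ 0 0 * x3 - ρ 1 0 * x1, ?_⟩
    rw [m3, i3, i4, h1, h3]
    ring

theorem exists_reps : ∃ R : Set SL2Gi, R.Finite ∧ ∀ γ : SL2Gi, ∃ ρ ∈ R, InGam (ρ⁻¹ * γ) := by
  classical
  let s : Set.range res → SL2Gi := fun x => x.2.choose
  have hs : ∀ x : Set.range res, res (s x) = x.1 := fun x => x.2.choose_spec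
  refine ⟨Set.range s, Set.finite_range s, fun γ => ?_⟩
  refine ⟨s ⟨res γ, γ, rfl⟩, ⟨_, rfl⟩, ?_⟩
  exact inGam_of_res (hs ⟨res γ, γ, rfl⟩).symm

/-! ## Horoballs -/

/-- The truncation matrix `diag(4, 1/4)`, mapping `{t > 1}` to `{t > 16}`. -/
noncomputable def D4 : SL2C := ⟨!![4, 0; 0, 1 / 4], by simp [Matrix.det_fin_two]⟩

theorem D4_smul (q : H3) : (D4 • q).1.1 = 16 * q.1.1 ∧ (D4 • q).1.2 = 16 * q.1.2 := by
  have h00 : D4 0 0 = 4 := by simp [D4]
  have h01 : D4 0 1 = 0 := by simp [D4]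
  have h10 : D4 1 0 = 0 := by simp [D4]
  have h11 : D4 1 1 = 1 / 4 := by simp [D4]
  have hd : den D4 q = 1 / 16 := by
    unfold den; rw [h10, h11]; simp; norm_num
  constructor
  · have hconj : (starRingEnd ℂ) (1 / 4) = 1 / 4 := by
      have : (1 / 4 : ℂ) = ((1 / 4 : ℝ) : ℂ) := by push_cast; ring
      rw [this, Complex.conj_ofReal]
    rw [smul_z, hd, h00, h01, h10, h11, zero_mul, zero_add, add_zero, hconj, map_zero]
    push_cast
    ring
  · rw [smul_height, hd]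
    ring

theorem D4_inv_smul (q : H3) : (D4⁻¹ • q).1.1 = q.1.1 / 16 ∧ (D4⁻¹ • q).1.2 = q.1.2 / 16 := by
  have h := D4_smul (D4⁻¹ • q)
  rw [smul_inv_smul] at h
  constructor
  · rw [h.1]; ring
  · rw [h.2]; ring

theorem mem_horoball_iff (γ : SL2Gi) (q : H3) :
    q ∈ horoball (toC γ * D4) ↔ 16 < ((toC γ)⁻¹ • q).1.2 := by
  have key : ((toC γ * D4)⁻¹ • q).1.2 = ((toC γ)⁻¹ • q).1.2 / 16 := by
    rw [mul_inv_rev, mul_smul, (D4_inv_smul _).2]
  constructor
  · rintro ⟨r, hr, rfl⟩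
    have hr' : 1 < r.1.2 := hr
    have h1 : (toC γ * D4)⁻¹ • ((toC γ * D4) • r) = r := inv_smul_smul _ _
    simp only
    rw [show ((toC γ)⁻¹ • ((toC γ * D4) • r)) = D4 • r by rw [mul_smul, inv_smul_smul],
      (D4_smul r).2]
    linarith
  · intro h
    refine ⟨(toC γ * D4)⁻¹ • q, ?_, smul_inv_smul _ _⟩
    change 1 < ((toC γ * D4)⁻¹ • q).1.2
    rw [key]
    linarith

theorem closure_horoball_subset (γ : SL2Gi) :
    closure (horoball (toC γ * D4)) ⊆ {q | 16 ≤ ((toC γ)⁻¹ • q).1.2} := by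
  apply closure_minimal
  · intro q hq
    exact ((mem_horoball_iff γ q).1 hq).le
  · have h1 : Continuous (fun q : H3 => ((toC γ)⁻¹ • q).1.2) :=
      (continuous_snd.comp continuous_subtype_val).comp (continuous_smul _)
    exact isClosed_le continuous_const h1

theorem horoball_eq_or_disjoint (γ γ' : SL2Gi) :
    horoball (toC γ * D4) = horoball (toC γ' * D4) ∨
      Disjoint (closure (horoball (toC γ * D4))) (closure (horoball (toC γ' * D4))) := by
  by_cases hc : (γ⁻¹ * γ') 1 0 = 0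
  · left
    ext q
    rw [mem_horoball_iff, mem_horoball_iff]
    have h1 : (toC γ)⁻¹ • q = toC (γ⁻¹ * γ') • ((toC γ')⁻¹ • q) := by
      rw [← mul_smul, map_mul, map_inv, mul_assoc, mul_inv_cancel, mul_one]
    rw [h1, height_of_c_eq_zero hc]
  · right
    rw [Set.disjoint_left]
    intro q hq hq'
    have h1 := closure_horoball_subset γ hq
    have h2 := closure_horoball_subset γ' hq'
    simp only [Set.mem_ofPred_eq] at h1 h2
    have h3 : (toC γ)⁻¹ • q = toC (γ⁻¹ * γ') • ((toC γ')⁻¹ • q) := by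
      rw [← mul_smul, map_mul, map_inv, mul_assoc, mul_inv_cancel, mul_one]
    have h4 := height_of_c_ne_zero hc ((toC γ')⁻¹ • q)
    rw [← h3] at h4
    nlinarith

theorem units_gauss {a d : GaussianInt} (h : a * d = 1) (hne : a + d ≠ 0) : a = 1 ∧ d = 1 ∨
    a = -1 ∧ d = -1 := by
  have h1 := congrArg Zsqrtd.norm h
  rw [Zsqrtd.norm_mul, Zsqrtd.norm_one] at h1
  have ha := GaussianInt.norm_nonneg a
  have hd := GaussianInt.norm_nonneg d
  have h2 : a.norm = 1 := Int.eq_one_of_dvd_one ha ⟨d.norm, h1.symm⟩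
  have hd2 : d = star a := by
    have h3 : star a * (a * d) = star a * 1 := by rw [h]
    rw [← mul_assoc] at h3
    have h4 : star a * a = 1 := by
      have := Zsqrtd.norm_eq_mul_conj a
      rw [mul_comm, ← this, h2]; simp
    rw [h4, one_mul, mul_one] at h3
    exact h3
  have h5 : a.re * a.re + a.im * a.im = 1 := by
    have := Zsqrtd.norm_def a
    rw [h2] at this
    linarith
  have hre : a.re ≠ 0 := by
    intro h0
    apply hne
    rw [hd2]
    ext
    · simp [h0]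
    · simp
  have hre2 : 1 ≤ a.re * a.re := by
    have := mul_self_pos.2 hre
    linarith
  have him : a.im = 0 := by
    have : a.im * a.im = 0 := by nlinarith [mul_self_nonneg a.im]
    exact mul_self_eq_zero.1 this
  have hre3 : a.re * a.re = 1 := by rw [him] at h5; linarith
  rcases mul_self_eq_one_iff.1 hre3 with h6 | h6
  · left
    constructor
    · ext <;> simp [h6, him]
    · rw [hd2]; ext <;> simp [h6, him]
  · right
    constructor
    · ext <;> simp [h6, him]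
    · rw [hd2]; ext <;> simp [h6, him]

theorem trace_conj (γ g : SL2Gi) : (γ⁻¹ * g * γ) 0 0 + (γ⁻¹ * g * γ) 1 1 = g 0 0 + g 1 1 := by
  obtain ⟨i1, i2, i3, i4⟩ := inv_entriesG γ
  obtain ⟨m1, m2, m3, m4⟩ := mul_entriesG (γ⁻¹ * g) γ
  obtain ⟨n1, n2, n3, n4⟩ := mul_entriesG γ⁻¹ g
  have hdet := det_eq γ
  rw [m1, m4, n1, n2, n3, n4, i1, i2, i3, i4]
  linear_combination (g 0 0 + g 1 1) * hdet

/-- Upper triangular elements `±(1 b; 0 1)` act by translations. -/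
theorem upper_smul {δ : SL2Gi} (hc : δ 1 0 = 0)
    (h : δ 0 0 = 1 ∧ δ 1 1 = 1 ∨ δ 0 0 = -1 ∧ δ 1 1 = -1) :
    ∃ w : ℂ, ∀ q : H3, toC δ • q = translate w q := by
  refine ⟨toC δ 0 1 * toC δ 1 1, fun q => ?_⟩
  have hd := den_of_c_eq_zero hc q
  apply Subtype.ext
  apply Prod.ext
  · rw [smul_z, hd]
    simp only [toC_entry, hc, translate]
    rcases h with ⟨h1, h2⟩ | ⟨h1, h2⟩ <;> rw [h1, h2] <;> simp [add_comm]
  · rw [height_of_c_eq_zero hc]
    simp [translate]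

theorem toric_aux {γ g : SL2Gi} (hg : InGam g)
    (hst : (fun q => toC g • q) '' horoball (toC γ * D4) = horoball (toC γ * D4)) :
    ∃ w : ℂ, ∀ q : H3, ((toC γ * D4)⁻¹ * toC g * (toC γ * D4)) • q = translate w q := by
  -- the conjugate in `SL(2, ℤ[i])`
  have hc : (γ⁻¹ * g * γ) 1 0 = 0 := by
    by_contra hne
    let r : H3 := pt 0 17 (by norm_num)
    have hr : toC γ • r ∈ horoball (toC γ * D4) := by
      rw [mem_horoball_iff, inv_smul_smul]
      change (16 : ℝ) < 17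
      norm_num
    have h1 : toC g • (toC γ • r) ∈ horoball (toC γ * D4) := by
      rw [← hst]
      exact ⟨_, hr, rfl⟩
    rw [mem_horoball_iff] at h1
    have h2 : (toC γ)⁻¹ • (toC g • (toC γ • r)) = toC (γ⁻¹ * g * γ) • r := by
      rw [← mul_smul, ← mul_smul, map_mul, map_mul, map_inv, mul_assoc]
    rw [h2] at h1
    have h3 := height_of_c_ne_zero hne r
    have h4 : r.1.2 = 17 := rfl
    rw [h4] at h3
    linarith
  have hdet := det_eq (γ⁻¹ * g * γ)
  rw [hc, mul_zero, sub_zero] at hdet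
  have htr : (γ⁻¹ * g * γ) 0 0 + (γ⁻¹ * g * γ) 1 1 ≠ 0 := by
    rw [trace_conj]
    exact trace_ne_zero hg
  obtain ⟨w, hw⟩ := upper_smul hc (units_gauss hdet htr)
  refine ⟨w / 16, fun q => ?_⟩
  have h1 : ((toC γ * D4)⁻¹ * toC g * (toC γ * D4)) • q = D4⁻¹ • (toC (γ⁻¹ * g * γ) • (D4 • q)) := by
    rw [← mul_smul, ← mul_smul, map_mul, map_mul, map_inv, mul_inv_rev]
    congr 1
    group
  rw [h1, hw]
  apply Subtype.ext
  apply Prod.ext
  · rw [(D4_inv_smul _).1]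
    simp only [translate]
    rw [(D4_smul q).1]
    ring
  · rw [(D4_inv_smul _).2]
    simp only [translate]
    rw [(D4_smul q).2]
    ring

/-! ## The compact part -/

/-- The compact fundamental region for `SL(2, ℤ[i])`. -/
def K0 : Set H3 := {q | ‖q.1.1‖ ≤ 1 ∧ 1 / 2 ≤ q.1.2 ∧ q.1.2 ≤ 16}

theorem isCompact_K0 : IsCompact K0 := by
  have h1 : IsCompact (Metric.closedBall (0 : ℂ) 1 ×ˢ Icc (1 / 2 : ℝ) 16) :=
    (isCompact_closedBall 0 1).prod isCompact_Icc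
  have h2 : K0 = Subtype.val ⁻¹' (Metric.closedBall (0 : ℂ) 1 ×ˢ Icc (1 / 2 : ℝ) 16) := by
    ext q
    simp only [K0, Set.mem_ofPred_eq, Set.mem_preimage, Set.mem_prod, Metric.mem_closedBall,
      dist_zero_right, Set.mem_Icc]
  rw [h2]
  refine (Topology.IsInducing.isCompact_preimage_iff Topology.IsInducing.subtypeVal ?_).2 h1
  rintro ⟨z, t⟩ ⟨_, ht⟩
  have ht0 : (0 : ℝ) < t := lt_of_lt_of_le (by norm_num) ht.1
  exact ⟨⟨(z, t), ht0⟩, rfl⟩

theorem cocompact_aux : ∃ K : Set H3, IsCompact K ∧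
    ∀ q : H3, (∀ γ : SL2Gi, q ∉ horoball (toC γ * D4)) → ∃ g : SL2Gi, InGam g ∧ toC g • q ∈ K := by
  obtain ⟨R, hR, hrep⟩ := exists_reps
  refine ⟨⋃ ρ ∈ R, (fun q => (toC ρ)⁻¹ • q) '' K0, ?_, ?_⟩
  · exact hR.isCompact_biUnion fun ρ _ => isCompact_K0.image (continuous_smul _)
  · intro q hq
    obtain ⟨γ, h1, h2⟩ := reduction q
    have h3 : (toC γ • q).1.2 ≤ 16 := by
      by_contra h
      push Not at h
      apply hq γ⁻¹
      rw [mem_horoball_iff, map_inv, inv_inv]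
      exact h
    obtain ⟨ρ, hρ, hin⟩ := hrep γ
    refine ⟨ρ⁻¹ * γ, hin, ?_⟩
    rw [Set.mem_iUnion₂]
    refine ⟨ρ, hρ, toC γ • q, ⟨h1, h2, h3⟩, ?_⟩
    simp only
    rw [map_mul, mul_smul, map_inv]

end Pool.Agent.Work.MP_f0c219_gt.Borromean
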