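import Pool.Agent.Work.MP_f0c219_gt_h72.Topo1

/-!
# Topology, part 2: the space obtained by truncating the unglued cusps only
-/

open Set Topology Filter
open scoped ComplexConjugate

namespace Pool.Agent.Work.MP_f0c219_gt.Model

open Borromean

/-! ## Heights -/

/-- The height of a point at the cusp of `γ`. -/
noncomputable def ht (γ : SL2Gi) (q : H3) : ℝ := ((toC γ)⁻¹ • q).1.2

theorem ht_pos (γ : SL2Gi) (q : H3) : 0 < ht γ q := ((toC γ)⁻¹ • q).2

theorem continuous_ht (γ : SL2Gi) : Continuous (ht γ) :=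
  (continuous_snd.comp continuous_subtype_val).comp (continuous_smul _)

theorem ht_one (q : H3) : ht 1 q = q.1.2 := by
  unfold ht; rw [map_one, inv_one, one_smul]

theorem ht_smul (g γ : SL2Gi) (q : H3) : ht γ (toC g • q) = ht (g⁻¹ * γ) q := by
  unfold ht
  rw [← mul_smul, map_mul, map_inv, mul_inv_rev, inv_inv]

theorem ht_inv (γ : SL2Gi) (q : H3) : ht γ⁻¹ q = (toC γ • q).1.2 := by
  unfold ht
  rw [map_inv, inv_inv]

theorem inv_smul_eq (γ γ' : SL2Gi) (q : H3) :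
    (toC γ)⁻¹ • q = toC (γ⁻¹ * γ') • ((toC γ')⁻¹ • q) := by
  rw [← mul_smul, map_mul, map_inv, mul_assoc, mul_inv_cancel, mul_one]

theorem ht_eq_of_same {γ γ' : SL2Gi} (h : (γ⁻¹ * γ') 1 0 = 0) (q : H3) : ht γ q = ht γ' q := by
  unfold ht
  rw [inv_smul_eq γ γ', height_of_c_eq_zero h]

theorem ht_mul_le {γ γ' : SL2Gi} (h : (γ⁻¹ * γ') 1 0 ≠ 0) (q : H3) : ht γ q * ht γ' q ≤ 1 := by
  have := height_of_c_ne_zero h ((toC γ')⁻¹ • q)
  rwa [← inv_smul_eq γ γ'] at this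

theorem same_of_ht {γ γ' : SL2Gi} {q : H3} (h : 1 < ht γ q) (h' : 1 < ht γ' q) :
    (γ⁻¹ * γ') 1 0 = 0 := by
  by_contra hne
  have := ht_mul_le hne q
  nlinarith

theorem den_le (g : SL2C) {q q₀ : H3} (h : 2 * Complex.normSq (q.1.1 - q₀.1.1) + q₀.1.2 ^ 2 ≤
    2 * q.1.2 ^ 2) : den g q₀ ≤ 2 * den g q := by
  unfold den
  have h1 : Complex.normSq (g 1 0 * q₀.1.1 + g 1 1) ≤
      2 * Complex.normSq (g 1 0 * q.1.1 + g 1 1) +
        2 * (Complex.normSq (g 1 0) * Complex.normSq (q.1.1 - q₀.1.1)) := by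
    rw [← Complex.normSq_mul]
    have e : g 1 0 * q₀.1.1 + g 1 1 = (g 1 0 * q.1.1 + g 1 1) - g 1 0 * (q.1.1 - q₀.1.1) := by ring
    rw [e]
    set a := g 1 0 * q.1.1 + g 1 1
    set b := g 1 0 * (q.1.1 - q₀.1.1)
    simp only [Complex.normSq_apply, Complex.sub_re, Complex.sub_im]
    nlinarith [sq_nonneg (a.re + b.re), sq_nonneg (a.im + b.im)]
  have h2 := Complex.normSq_nonneg (g 1 0)
  nlinarith [mul_le_mul_of_nonneg_left h h2]

theorem ht_le_four {q q₀ : H3} (h : 2 * Complex.normSq (q.1.1 - q₀.1.1) + q₀.1.2 ^ 2 ≤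
    2 * q.1.2 ^ 2) (h2 : q.1.2 ≤ 2 * q₀.1.2) (γ : SL2Gi) : ht γ q ≤ 4 * ht γ q₀ := by
  unfold ht
  rw [smul_height, smul_height]
  have h3 := den_le (toC γ)⁻¹ h
  have h4 := den_pos (toC γ)⁻¹ q
  have h5 := den_pos (toC γ)⁻¹ q₀
  rw [div_le_iff₀ h4, mul_comm (4 : ℝ), mul_assoc, div_mul_eq_mul_div, le_div_iff₀ h5]
  have h6 : 0 < q.1.2 := q.2
  have h7 : 0 < q₀.1.2 := q₀.2
  nlinarith [mul_le_mul_of_nonneg_left h3 h6.le, mul_le_mul_of_nonneg_left h2 h4.le]

theorem nhds_ht (q₀ : H3) : ∀ᶠ q in 𝓝 q₀, ∀ γ, ht γ q ≤ 4 * ht γ q₀ := by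
  have h1 : Continuous fun q : H3 => 2 * Complex.normSq (q.1.1 - q₀.1.1) + q₀.1.2 ^ 2 := by
    have := Complex.continuous_normSq
    fun_prop
  have h2 : Continuous fun q : H3 => 2 * q.1.2 ^ 2 := by fun_prop
  have h3 : Continuous fun q : H3 => q.1.2 := by fun_prop
  have hpos : 0 < q₀.1.2 := q₀.2
  have e1 : ∀ᶠ q in 𝓝 q₀, 2 * Complex.normSq (q.1.1 - q₀.1.1) + q₀.1.2 ^ 2 < 2 * q.1.2 ^ 2 := by
    refine h1.continuousAt.eventually_lt h2.continuousAt ?_
    simp only [sub_self, map_zero, mul_zero, zero_add]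
    nlinarith
  have e2 : ∀ᶠ q in 𝓝 q₀, q.1.2 < 2 * q₀.1.2 :=
    h3.continuousAt.eventually_lt continuousAt_const (by linarith)
  filter_upwards [e1, e2] with q hq1 hq2 γ
  exact ht_le_four hq1.le hq2.le γ

theorem horoball_iff_ht (γ : SL2Gi) (q : H3) : q ∈ horoball (toC γ * D4) ↔ 16 < ht γ q :=
  mem_horoball_iff γ q

theorem core_iff (q : H3) : (∀ h ∈ Bor.cusps, q ∉ horoball h) ↔ ∀ γ, ht γ q ≤ 16 := by
  constructor
  · intro h γ
    have := h _ (mem_cusps.2 ⟨γ, rfl⟩)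
    rw [horoball_iff_ht] at this
    exact not_lt.1 this
  · intro h h' hh
    obtain ⟨γ, rfl⟩ := mem_cusps.1 hh
    rw [horoball_iff_ht]
    exact not_lt.2 (h γ)

/-! ## Glued cusps -/

/-- The cusps in the orbit of infinity. -/
def Glued (γ : SL2Gi) : Prop := ∃ g, InGam g ∧ (g⁻¹ * γ) 1 0 = 0

theorem upper_mul {γ δ : SL2Gi} (h : γ 1 0 = 0) (h' : δ 1 0 = 0) : (γ * δ) 1 0 = 0 := by
  rw [(mul_entriesG γ δ).2.2.1, h, h']
  ring

theorem upper_inv {γ : SL2Gi} (h : γ 1 0 = 0) : γ⁻¹ 1 0 = 0 := by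
  rw [(inv_entriesG γ).2.2.1, h, neg_zero]

theorem same_symm {γ γ' : SL2Gi} (h : (γ⁻¹ * γ') 1 0 = 0) : (γ'⁻¹ * γ) 1 0 = 0 := by
  have := upper_inv h
  rwa [mul_inv_rev, inv_inv] at this

theorem glued_one : Glued 1 := ⟨1, inGam_one, rfl⟩

theorem Glued.of_same {γ γ' : SL2Gi} (hγ : Glued γ) (h : (γ⁻¹ * γ') 1 0 = 0) : Glued γ' := by
  obtain ⟨g, hg, h1⟩ := hγ
  refine ⟨g, hg, ?_⟩
  have := upper_mul h1 h
  rwa [mul_assoc, mul_inv_cancel_left] at this

theorem glued_smul {g : SL2Gi} (hg : InGam g) (γ : SL2Gi) : Glued (g⁻¹ * γ) ↔ Glued γ := by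
  constructor
  · rintro ⟨g', hg', h⟩
    refine ⟨g * g', inGam_mul hg hg', ?_⟩
    rwa [mul_inv_rev, mul_assoc]
  · rintro ⟨g', hg', h⟩
    refine ⟨g⁻¹ * g', inGam_mul (inGam_inv hg) hg', ?_⟩
    rwa [mul_inv_rev, inv_inv, mul_assoc, mul_inv_cancel_left]

/-! ## The truncated space -/

/-- Upper half space truncated along the unglued cusps. -/
def VP : Set H3 := {q | ∀ γ : SL2Gi, ¬ Glued γ → ht γ q ≤ 16}

/-- Cap the height. -/
noncomputable def cap (q : H3) : H3 := ⟨(q.1.1, min q.1.2 16), lt_min q.2 (by norm_num)⟩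

theorem continuous_cap : Continuous cap := by
  unfold cap
  fun_prop

theorem upper_smul_z {δ : SL2Gi} (hc : δ 1 0 = 0) (q : H3) :
    (toC δ • q).1.1 = (toC δ 0 0 * q.1.1 + toC δ 0 1) * (starRingEnd ℂ) (toC δ 1 1) := by
  rw [smul_z, den_of_c_eq_zero hc]
  simp [toC_entry, hc]

theorem cap_upper {δ : SL2Gi} (hc : δ 1 0 = 0) (q : H3) : cap (toC δ • q) = toC δ • cap q := by
  apply Subtype.ext
  apply Prod.ext
  · rw [upper_smul_z hc]
    change (toC δ • q).1.1 = _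
    rw [upper_smul_z hc]
    rfl
  · rw [height_of_c_eq_zero hc]
    change min (toC δ • q).1.2 16 = min q.1.2 16
    rw [height_of_c_eq_zero hc]

/-- Push down in the horoball of `γ`. -/
noncomputable def push (γ : SL2Gi) (q : H3) : H3 := toC γ • cap ((toC γ)⁻¹ • q)

theorem continuous_push (γ : SL2Gi) : Continuous (push γ) :=
  (continuous_smul _).comp (continuous_cap.comp (continuous_smul _))

theorem ht_push (γ : SL2Gi) (q : H3) : ht γ (push γ q) = min (ht γ q) 16 := by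
  unfold ht push
  rw [inv_smul_smul]
  rfl

theorem push_eq_self {γ : SL2Gi} {q : H3} (h : ht γ q ≤ 16) : push γ q = q := by
  unfold push
  have : cap ((toC γ)⁻¹ • q) = (toC γ)⁻¹ • q := by
    apply Subtype.ext
    apply Prod.ext
    · rfl
    · exact min_eq_left h
  rw [this, smul_inv_smul]

theorem push_eq_of_same {γ γ' : SL2Gi} (h : (γ⁻¹ * γ') 1 0 = 0) (q : H3) : push γ q = push γ' q := by
  unfold push
  rw [inv_smul_eq γ γ', cap_upper h, ← mul_smul, map_mul, map_inv, mul_inv_cancel_left]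

open Classical in
/-- The retraction onto the truncated space. -/
noncomputable def ret (q : H3) : H3 :=
  if h : ∃ γ, ¬ Glued γ ∧ 16 < ht γ q then push h.choose q else q

theorem ret_of {γ : SL2Gi} {q : H3} (hγ : ¬ Glued γ) (h : 1 < ht γ q) : ret q = push γ q := by
  unfold ret
  split_ifs with h1
  · have h2 := h1.choose_spec
    exact push_eq_of_same (same_of_ht (by linarith [h2.2]) h) q
  · push Not at h1
    exact (push_eq_self (h1 γ hγ)).symm

theorem ret_of_mem {q : H3} (h : q ∈ VP) : ret q = q := by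
  unfold ret
  rw [dif_neg]
  rintro ⟨γ, h1, h2⟩
  exact absurd (h γ h1) (not_le.2 h2)

theorem ret_mem (q : H3) : ret q ∈ VP := by
  by_cases h : ∃ γ, ¬ Glued γ ∧ 16 < ht γ q
  · obtain ⟨γ, h1, h2⟩ := h
    rw [ret_of h1 (by linarith)]
    intro γ' hγ'
    by_contra hlt
    push Not at hlt
    have h3 : ht γ (push γ q) = 16 := by rw [ht_push, min_eq_right h2.le]
    have h4 := same_of_ht (γ := γ) (γ' := γ') (q := push γ q) (by rw [h3]; norm_num) (by linarith)
    rw [← ht_eq_of_same h4, h3] at hlt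
    exact lt_irrefl _ hlt
  · push Not at h
    rw [ret_of_mem h]
    exact h

theorem continuous_ret : Continuous ret := by
  rw [continuous_iff_continuousAt]
  intro q₀
  by_cases h : ∃ γ, ¬ Glued γ ∧ 1 < ht γ q₀
  · obtain ⟨γ, h1, h2⟩ := h
    refine (continuous_push γ).continuousAt.congr ?_
    have e1 : ∀ᶠ q in 𝓝 q₀, 1 < ht γ q :=
      continuousAt_const.eventually_lt (continuous_ht γ).continuousAt h2
    filter_upwards [e1] with q hq
    exact (ret_of h1 hq).symm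
  · push Not at h
    refine continuousAt_id.congr ?_
    filter_upwards [nhds_ht q₀] with q hq
    refine (ret_of_mem ?_).symm
    intro γ hγ
    change ht γ q ≤ 16
    linarith [hq γ, h γ hγ]

theorem one_mem_VP {z : ℂ} {t : ℝ} (h1 : 1 ≤ t) : pt z t (by linarith) ∈ VP := by
  intro γ hγ
  by_cases h : ((1 : SL2Gi)⁻¹ * γ) 1 0 = 0
  · exact absurd (glued_one.of_same h) hγ
  · have h2 := ht_mul_le h (pt z t (by linarith))
    rw [ht_one] at h2
    have h3 : (pt z t (by linarith)).1.2 = t := rfl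
    rw [h3] at h2
    have h4 := ht_pos γ (pt z t (by linarith))
    nlinarith

instance : ContractibleSpace H3 := by
  have h : Convex ℝ {q : ℂ × ℝ | 0 < q.2} := by
    have := (convex_Ioi (0 : ℝ)).linear_preimage (LinearMap.snd ℝ ℂ ℝ)
    exact this
  exact h.contractibleSpace ⟨(0, 1), (one_pos : (0 : ℝ) < 1)⟩

instance : ContractibleSpace VP := by
  rw [contractible_iff_id_nullhomotopic]
  let i : C(VP, H3) := ⟨Subtype.val, continuous_subtype_val⟩
  let r : C(H3, VP) := ⟨fun q => ⟨ret q, ret_mem q⟩, continuous_ret.subtype_mk _⟩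
  have h1 := ((id_nullhomotopic H3).comp_left i).comp_right r
  have h2 : r.comp ((ContinuousMap.id H3).comp i) = ContinuousMap.id VP := by
    ext q
    change (ret q.1).1.1 = _
    rw [ret_of_mem q.2]
    rfl
    change (ret q.1).1.2 = _
    rw [ret_of_mem q.2]
    rfl
  rwa [h2] at h1

end Pool.Agent.Work.MP_f0c219_gt.Model
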