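import Pool.Agent.Work.MP_f0c219_gt_h72.Topo2

/-!
# Topology, part 3: the gluing system
-/

open Set Topology Filter
open scoped ComplexConjugate

namespace Pool.Agent.Work.MP_f0c219_gt.Model

open Borromean

/-! ## Proper discontinuity -/

theorem exists_nhds_PG (q : H3) : ∃ U ∈ 𝓝 q, ∀ σ ∈ PG, (∃ q' ∈ U, σ q' ∈ U) → σ = 1 := by
  have hloc : LocallyCompactSpace H3 := by
    have h : IsOpen {q : ℂ × ℝ | 0 < q.2} := isOpen_lt continuous_const continuous_snd
    exact h.locallyCompactSpace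
  obtain ⟨K, hK, hKq⟩ := exists_compact_mem_nhds q
  have hF := Bor.discrete K hK
  have key : ∀ g : SL2C, ∃ U ∈ 𝓝 q, g • q ≠ q → ∀ q' ∈ U, g • q' ∉ U := by
    intro g
    by_cases h : g • q = q
    · exact ⟨univ, univ_mem, fun h' => absurd h h'⟩
    · obtain ⟨A, B, hA, hB, hqA, hgB, hAB⟩ := t2_separation (Ne.symm h)
      refine ⟨A ∩ (fun q' => g • q') ⁻¹' B, ?_, ?_⟩
      · exact inter_mem (hA.mem_nhds hqA)
          ((hB.preimage (continuous_smul g)).mem_nhds hgB)
      · rintro - q' ⟨-, h2⟩ ⟨h3, -⟩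
        exact disjoint_left.1 hAB h3 h2
  choose U hU hU' using key
  refine ⟨K ∩ ⋂ g ∈ {g : SL2C | g ∈ Bor.Γ ∧ (((fun q => g • q) '' K) ∩ K).Nonempty}, U g, ?_, ?_⟩
  · exact inter_mem hKq ((biInter_mem hF).2 fun g _ => hU g)
  · rintro σ hσ ⟨q', ⟨hq1, hq2⟩, hq3, hq4⟩
    obtain ⟨γ, hγ, h⟩ := mem_PG.1 hσ
    rw [h] at hq3 hq4
    have hmem : toC γ ∈ {g : SL2C | g ∈ Bor.Γ ∧ (((fun q => g • q) '' K) ∩ K).Nonempty} :=
      ⟨mem_Γ.2 ⟨γ, hγ, rfl⟩, toC γ • q', ⟨q', hq1, rfl⟩, hq3⟩
    have h1 := mem_iInter₂.1 hq2 _ hmem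
    have h2 := mem_iInter₂.1 hq4 _ hmem
    have h3 : toC γ • q = q := by
      by_contra hne
      exact hU' _ hne q' h1 h2
    ext1 q''
    rw [h, Equiv.Perm.one_apply]
    rcases gam_free hγ q h3 with h4 | h4
    · rw [h4, one_smul]
    · have h5 : toC (-γ) = 1 := by
        apply Subtype.ext
        apply Matrix.ext
        intro i j
        have h6 := congrArg (fun x : SL2C => x i j) h4
        change toC (-γ) i j = (1 : SL2C) i j
        rw [toC_entry, neg_entries, map_neg]
        simp only [toC_entry] at h6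
        rw [h6]
        change - -((1 : SL2C) i j) = _
        rw [neg_neg]
      rw [← neg_toC_smul, h5, one_smul]

/-! ## The model space -/

theorem PG_mem_VP (σ : PG) {q : H3} (hq : q ∈ VP) : σ.1 q ∈ VP := by
  obtain ⟨g, hg, h⟩ := mem_PG.1 σ.2
  intro γ hγ
  rw [h, ht_smul]
  exact hq _ (fun h' => hγ ((glued_smul hg γ).1 h'))

theorem continuous_PG (σ : PG) : Continuous (fun q : H3 => σ.1 q) := by
  obtain ⟨g, -, h⟩ := mem_PG.1 σ.2
  have : (fun q : H3 => σ.1 q) = fun q => toC g • q := funext h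
  rw [this]
  exact continuous_smul _

/-- The model space `X = Y` of the vertex spaces. -/
def PX : Type := VP × ℝ

noncomputable instance : TopologicalSpace PX := inferInstanceAs (TopologicalSpace (VP × ℝ))

instance : ContractibleSpace PX := inferInstanceAs (ContractibleSpace (VP × ℝ))

/-- The height of a point. -/
def tt (x : PX) : ℝ := x.1.1.1.2

theorem tt_pos (x : PX) : 0 < tt x := x.1.1.2

/-- The torus coordinates of a point. -/
noncomputable def zr (x : PX) : ℂ × ℝ := (x.1.1.1.1 / 16, x.2)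

theorem continuous_tt : Continuous tt := by
  have h : Continuous (fun x : VP × ℝ => x.1.1.1.2) := by fun_prop
  exact h

theorem continuous_zr : Continuous zr := by
  have h : Continuous (fun x : VP × ℝ => ((x.1.1.1.1 / 16, x.2) : ℂ × ℝ)) := by fun_prop
  exact h

/-- The point with torus coordinates `p` and height `t`. -/
noncomputable def mkX (p : ℂ × ℝ) (t : ℝ) (h : 1 ≤ t) : PX :=
  (⟨pt (16 * p.1) t (by linarith), one_mem_VP h⟩, p.2)

theorem tt_mkX (p : ℂ × ℝ) (t : ℝ) (h : 1 ≤ t) : tt (mkX p t h) = t := rfl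

theorem zr_mkX (p : ℂ × ℝ) (t : ℝ) (h : 1 ≤ t) : zr (mkX p t h) = p := by
  apply Prod.ext
  · change 16 * p.1 / 16 = p.1
    ring
  · rfl

theorem extX {x y : PX} (h1 : zr x = zr y) (h2 : tt x = tt y) : x = y := by
  have h3 : x.1.1.1.1 / 16 = y.1.1.1.1 / 16 := congrArg (fun p : ℂ × ℝ => p.1) h1
  have h4 : x.2 = y.2 := congrArg (fun p : ℂ × ℝ => p.2) h1
  apply Prod.ext
  · apply Subtype.ext
    apply Subtype.ext
    apply Prod.ext
    · linear_combination 16 * h3
    · exact h2
  · exact h4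

theorem continuous_mkX {Z : Type*} [TopologicalSpace Z] {p : Z → ℂ × ℝ} {t : Z → ℝ}
    (h : ∀ z, 1 ≤ t z) (hp : Continuous p) (ht : Continuous t) :
    Continuous fun z => mkX (p z) (t z) (h z) := by
  have : Continuous (fun z => ((⟨pt (16 * (p z).1) (t z) (by linarith [h z]), one_mem_VP (h z)⟩,
      (p z).2) : VP × ℝ)) := by
    unfold pt
    fun_prop
  exact this

/-! ## The action -/

noncomputable instance : MulAction VG PX where
  smul a x := (⟨a.1.1 x.1.1, PG_mem_VP a.1 x.1.2⟩, x.2 + (Multiplicative.toAdd a.2 : ℤ))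
  one_smul x := by
    apply Prod.ext
    · rfl
    · change x.2 + ((0 : ℤ) : ℝ) = x.2
      simp
  mul_smul a b x := by
    apply Prod.ext
    · rfl
    · change x.2 + ((Multiplicative.toAdd a.2 + Multiplicative.toAdd b.2 : ℤ) : ℝ) =
        x.2 + (Multiplicative.toAdd b.2 : ℤ) + (Multiplicative.toAdd a.2 : ℤ)
      push_cast
      ring

theorem smul_fst (a : VG) (x : PX) : (a • x).1.1 = a.1.1 x.1.1 := rfl

theorem smul_snd (a : VG) (x : PX) : (a • x).2 = x.2 + (Multiplicative.toAdd a.2 : ℤ) := rfl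

instance : ContinuousConstSMul VG PX where
  continuous_const_smul a := by
    have h1 := continuous_PG a.1
    have : Continuous (fun x : VP × ℝ => ((⟨a.1.1 x.1.1, PG_mem_VP a.1 x.1.2⟩,
        x.2 + (Multiplicative.toAdd a.2 : ℤ)) : VP × ℝ)) := by
      refine Continuous.prodMk ?_ (by fun_prop)
      exact (h1.comp (continuous_subtype_val.comp continuous_fst)).subtype_mk _
    exact this

theorem hA (x : PX) : ∃ U ∈ 𝓝 x, ∀ a : VG, ((a • ·) '' U ∩ U).Nonempty → a = 1 := by
  obtain ⟨U, hU, h⟩ := exists_nhds_PG x.1.1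
  refine ⟨{y : PX | y.1.1 ∈ U ∧ |y.2 - x.2| < 1 / 2}, ?_, ?_⟩
  · have h1 : Continuous (fun y : PX => y.1.1) := by
      have : Continuous (fun x : VP × ℝ => x.1.1) := by fun_prop
      exact this
    have h2 : Continuous (fun y : PX => |y.2 - x.2|) := by
      have : Continuous (fun y : VP × ℝ => |y.2 - x.2|) := by fun_prop
      exact this
    refine inter_mem (h1.continuousAt.preimage_mem_nhds hU) ?_
    have h3 : ∀ᶠ y in 𝓝 x, |y.2 - x.2| < 1 / 2 :=
      h2.continuousAt.eventually_lt continuousAt_const (by simp)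
    exact h3
  · rintro a ⟨_, ⟨y, ⟨hy1, hy2⟩, rfl⟩, hy3, hy4⟩
    simp only [smul_fst, smul_snd] at hy3 hy4
    have e1 : a.1.1 = 1 := h _ a.1.2 ⟨_, hy1, hy3⟩
    have e2 : |((Multiplicative.toAdd a.2 : ℤ) : ℝ)| < 1 := by
      rw [abs_lt] at hy2 hy4 ⊢
      constructor <;> linarith [hy2.1, hy2.2, hy4.1, hy4.2]
    have e3 : (Multiplicative.toAdd a.2 : ℤ) = 0 := by
      rw [← Int.cast_abs] at e2
      have : |(Multiplicative.toAdd a.2 : ℤ)| < 1 := by exact_mod_cast e2
      exact Int.abs_lt_one_iff.1 this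
    apply Prod.ext
    · exact Subtype.ext e1
    · exact e3

theorem zr_per (v : Multiplicative Z3) (x : PX) : zr (per v • x) = zr x + ev v.toAdd := by
  apply Prod.ext
  · change (x.1.1.1.1 + ((v.toAdd.1 : ℂ) * mu + (v.toAdd.2.1 : ℂ) * lam)) / 16 = _
    rw [Prod.fst_add, ev_apply]
    change _ = x.1.1.1.1 / 16 + _
    ring
  · rfl

theorem tt_per (v : Multiplicative Z3) (x : PX) : tt (per v • x) = tt x := rfl

theorem prec {a : VG} {x : PX} (hx : 1 < tt x) (hax : 1 < tt (a • x)) : ∃ v, per v = a := by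
  obtain ⟨γ, hγ, h⟩ := mem_PG.1 a.1.2
  have h1 : tt (a • x) = (toC γ • x.1.1).1.2 := by
    unfold tt
    rw [smul_fst, h]
  rw [h1] at hax
  obtain ⟨m, n, h2⟩ := exists_translate hγ (c_eq_zero_of_height hx hax)
  refine ⟨Multiplicative.ofAdd (m, n, Multiplicative.toAdd a.2), ?_⟩
  apply Prod.ext
  · apply Subtype.ext
    ext1 q
    rw [h, h2]
    rfl
  · rfl

/-! ## The gluing system -/

/-- The gluing map of the collars. -/
noncomputable def col (L : (ℂ × ℝ) ≃ₗ[ℝ] (ℂ × ℝ)) (x : PX) : PX :=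
  mkX (L (zr x)) (8 + 64 / |tt x - 8|) (by
    have : 0 ≤ 64 / |tt x - 8| := by positivity
    linarith)

theorem zr_col (L : (ℂ × ℝ) ≃ₗ[ℝ] (ℂ × ℝ)) (x : PX) : zr (col L x) = L (zr x) := zr_mkX _ _ _

theorem tt_col (L : (ℂ × ℝ) ≃ₗ[ℝ] (ℂ × ℝ)) {x : PX} (hx : 8 < tt x) :
    tt (col L x) = 8 + 64 / (tt x - 8) := by
  have h : |tt x - 8| = tt x - 8 := abs_of_pos (by linarith)
  rw [← h]
  rfl

theorem col_gt (L : (ℂ × ℝ) ≃ₗ[ℝ] (ℂ × ℝ)) {x : PX} (hx : 8 < tt x) : 8 < tt (col L x) := by
  rw [tt_col L hx]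
  have : 0 < 64 / (tt x - 8) := div_pos (by norm_num) (by linarith)
  linarith

theorem col_col (L : (ℂ × ℝ) ≃ₗ[ℝ] (ℂ × ℝ)) {x : PX} (hx : 8 < tt x) :
    col L.symm (col L x) = x := by
  apply extX
  · rw [zr_col, zr_col, LinearEquiv.symm_apply_apply]
  · rw [tt_col _ (col_gt L hx), tt_col L hx]
    have : tt x - 8 ≠ 0 := by linarith
    field_simp
    ring

theorem continuousOn_col (L : (ℂ × ℝ) ≃ₗ[ℝ] (ℂ × ℝ)) : ContinuousOn (col L) {x | 8 < tt x} := by
  rw [continuousOn_iff_continuous_domRestrict]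
  have h1 : Continuous (fun x : {x : PX | 8 < tt x} => L (zr x.1)) := by
    have : Continuous L := L.toLinearMap.continuous_of_finiteDimensional
    exact this.comp (continuous_zr.comp continuous_subtype_val)
  have h2 : Continuous (fun x : {x : PX | 8 < tt x} => 8 + 64 / |tt x.1 - 8|) := by
    have h3 : Continuous (fun x : {x : PX | 8 < tt x} => tt x.1) :=
      continuous_tt.comp continuous_subtype_val
    refine continuous_const.add (continuous_const.div ?_ ?_)
    · exact (h3.sub continuous_const).abs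
    · intro x
      have : (8 : ℝ) < tt x.1 := x.2
      have : tt x.1 - 8 ≠ 0 := by linarith
      positivity
  exact continuous_mkX (fun x => by
    have : 0 ≤ 64 / |tt x.1 - 8| := by positivity
    linarith) h1 h2

theorem isOpen_collar : IsOpen {x : PX | 8 < tt x} := isOpen_lt continuous_const continuous_tt

/-- The gluing homeomorphism of the collars. -/
noncomputable def colHomeo (L : (ℂ × ℝ) ≃ₗ[ℝ] (ℂ × ℝ)) : OpenPartialHomeomorph PX PX where
  toFun := col L
  invFun := col L.symm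
  source := {x | 8 < tt x}
  target := {x | 8 < tt x}
  map_source' _ hx := col_gt L hx
  map_target' _ hx := col_gt L.symm hx
  left_inv' _ hx := col_col L hx
  right_inv' _ hx := col_col L.symm hx
  open_source := isOpen_collar
  open_target := isOpen_collar
  continuousOn_toFun := continuousOn_col L
  continuousOn_invFun := continuousOn_col L.symm

/-- The gluing system. -/
noncomputable def sys (e : LatIso) : GlueSys VG VG (Multiplicative Z3) PX PX where
  i := per
  j := per.comp (AddMonoidHom.toMultiplicative e.E.toAddMonoidHom)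
  φ := colHomeo e.L
  i_smul h x hx := by
    change 8 < tt (per h • x)
    rw [tt_per]
    exact hx
  j_smul h x hx := by
    change col e.L (per h • x) = per (Multiplicative.ofAdd (e.E h.toAdd)) • col e.L x
    have hx' : 8 < tt x := hx
    have hx2 : 8 < tt (per h • x) := by rw [tt_per]; exact hx
    apply extX
    · rw [zr_col, zr_per, zr_per, zr_col, map_add, e.comm]
      rfl
    · rw [tt_col _ hx2, tt_per, tt_per, tt_col _ hx']
  precA a x hx hax := by
    have h1 : 8 < tt x := hx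
    have h2 : 8 < tt (a • x) := hax
    exact prec (a := a) (x := x) (by linarith) (by linarith)
  precB a x hx hax := by
    have h1 : 8 < tt x := hx
    have h2 : 8 < tt (a • x) := hax
    obtain ⟨v, hv⟩ := prec (a := a) (x := x) (by linarith) (by linarith)
    refine ⟨Multiplicative.ofAdd (e.E.symm v.toAdd), ?_⟩
    change per (Multiplicative.ofAdd (e.E (e.E.symm v.toAdd))) = a
    rw [AddEquiv.apply_symm_apply]
    exact hv

theorem isPathConnected_collar : IsPathConnected {x : PX | 8 < tt x} := by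
  have h1 : IsPathConnected ((univ : Set (ℂ × ℝ)) ×ˢ Ioi (8 : ℝ)) :=
    ((convex_univ).prod (convex_Ioi 8)).isPathConnected ⟨(0, 9), mem_univ _, by
      change (8 : ℝ) < 9; norm_num⟩
  let f : (ℂ × ℝ) × ℝ → PX := fun p => mkX p.1 (max p.2 1) (le_max_right _ _)
  have hf : Continuous f := continuous_mkX _ continuous_fst (by fun_prop)
  have h2 : f '' ((univ : Set (ℂ × ℝ)) ×ˢ Ioi (8 : ℝ)) = {x : PX | 8 < tt x} := by
    ext x
    constructor
    · rintro ⟨p, ⟨-, hp⟩, rfl⟩
      change 8 < max p.2 1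
      exact lt_max_of_lt_left hp
    · intro hx
      have hx' : 8 < tt x := hx
      refine ⟨(zr x, tt x), ⟨mem_univ _, hx'⟩, ?_⟩
      apply extX
      · exact zr_mkX _ _ _
      · change max (tt x) 1 = tt x
        exact max_eq_left (by linarith)
  rw [← h2]
  exact h1.image hf

theorem edge_sys (e : LatIso) : (sys e).edge = e.phi := rfl

end Pool.Agent.Work.MP_f0c219_gt.Model
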