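import Pool.Agent.Work.MP_f0c219_gt_h72.Topo3

/-!
# Topology, part 4: the glued space is the quotient of the gluing system
-/

open Set Topology Filter
open scoped ComplexConjugate

namespace Pool.Agent.Work.MP_f0c219_gt

/-! ## Open quotient maps -/

namespace CuspedHyp3

variable (D : CuspedHyp3)

/-- The action of the holonomy group on the core. -/
noncomputable def coreAct (g : SL2C) (hg : g ∈ D.Γ) (x : D.Core) : D.Core := ⟨g • x.1, by
  rintro h hh ⟨r, hr, hgr⟩
  refine x.2 (g⁻¹ * h) (D.invariant _ (D.Γ.inv_mem hg) _ hh) ⟨r, hr, ?_⟩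
  simp only at hgr ⊢
  rw [mul_smul, hgr, inv_smul_smul]⟩

theorem continuous_coreAct (g : SL2C) (hg : g ∈ D.Γ) : Continuous (D.coreAct g hg) :=
  ((Borromean.continuous_smul g).comp continuous_subtype_val).subtype_mk _

theorem isOpenQuotientMap_mk : IsOpenQuotientMap (Quotient.mk D.coreSetoid : D.Core → D.Nbar) := by
  refine ⟨Quotient.mk_surjective, continuous_quotient_mk', ?_⟩
  intro V hV
  have h1 : IsOpen (Quotient.mk D.coreSetoid ⁻¹' (Quotient.mk D.coreSetoid '' V)) := by
    have h2 : (Quotient.mk D.coreSetoid ⁻¹' (Quotient.mk D.coreSetoid '' V)) =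
        ⋃ g : D.Γ, D.coreAct g.1 g.2 ⁻¹' V := by
      ext x
      simp only [mem_preimage, mem_image, mem_iUnion]
      constructor
      · rintro ⟨y, hy, hxy⟩
        obtain ⟨g, hg, h⟩ := Quotient.exact (s := D.coreSetoid) hxy
        refine ⟨⟨g⁻¹, D.Γ.inv_mem hg⟩, ?_⟩
        have : D.coreAct g⁻¹ (D.Γ.inv_mem hg) x = y := by
          apply Subtype.ext
          change g⁻¹ • x.1 = y.1
          rw [← h, inv_smul_smul]
        rw [this]
        exact hy
      · rintro ⟨g, hg⟩
        refine ⟨_, hg, ?_⟩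
        refine Quotient.sound (s := D.coreSetoid) ?_
        exact ⟨g.1⁻¹, D.Γ.inv_mem g.2, inv_smul_smul _ _⟩
    rw [h2]
    exact isOpen_iUnion fun g => hV.preimage (D.continuous_coreAct g.1 g.2)
  exact h1

/-- The universal parametrisation of the piece. -/
def F0 (p : D.Core × ℝ) : D.Piece := (Quotient.mk D.coreSetoid p.1, (p.2 : AddCircle (1 : ℝ)))

theorem isOpenQuotientMap_F0 : IsOpenQuotientMap D.F0 :=
  D.isOpenQuotientMap_mk.prodMap QuotientAddGroup.isOpenQuotientMap_mk

end CuspedHyp3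

theorem circle_eq_iff (a b : ℝ) : (a : AddCircle (1 : ℝ)) = b ↔ ∃ n : ℤ, b = a + n := by
  have h : (a : AddCircle (1 : ℝ)) = b ↔ ((b - a : ℝ) : AddCircle (1 : ℝ)) = 0 := by
    rw [AddCircle.coe_sub, sub_eq_zero, eq_comm]
  rw [h, AddCircle.coe_eq_zero_iff]
  constructor
  · rintro ⟨n, hn⟩
    refine ⟨n, ?_⟩
    rw [zsmul_eq_mul, mul_one] at hn
    linarith
  · rintro ⟨n, hn⟩
    refine ⟨n, ?_⟩
    rw [zsmul_eq_mul, mul_one]
    linarith

namespace Model

open Borromean GlueSys

/-- The inclusion of the core into the model space. -/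
def inc (p : Bor.Core × ℝ) : PX := (⟨p.1.1, fun γ _ => (core_iff p.1.1).1 p.1.2 γ⟩, p.2)

theorem continuous_inc : Continuous inc := by
  have : Continuous (fun p : Bor.Core × ℝ =>
      ((⟨p.1.1, fun γ _ => (core_iff p.1.1).1 p.1.2 γ⟩, p.2) : VP × ℝ)) := by
    refine Continuous.prodMk ?_ continuous_snd
    exact (continuous_subtype_val.comp continuous_fst).subtype_mk _
  exact this

theorem inc_injective : Function.Injective inc := by
  intro p p' h
  have h1 : p.1.1 = p'.1.1 := congrArg (fun x : PX => x.1.1) h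
  have h2 : p.2 = p'.2 := congrArg (fun x : PX => x.2) h
  exact Prod.ext (Subtype.ext h1) h2

theorem F0_eq_iff {p p' : Bor.Core × ℝ} : Bor.F0 p = Bor.F0 p' ↔ ∃ a : VG, inc p' = a • inc p := by
  constructor
  · intro h
    have h1 := Quotient.exact (s := Bor.coreSetoid) (congrArg Prod.fst h)
    have h2 := (circle_eq_iff _ _).1 (congrArg Prod.snd h)
    obtain ⟨g, hg, h1⟩ := h1
    obtain ⟨n, h2⟩ := h2
    obtain ⟨γ, hγ, rfl⟩ := mem_Γ.1 hg
    refine ⟨(⟨MulAction.toPermHom SL2C H3 (toC γ), mem_PG.2 ⟨γ, hγ, fun _ => rfl⟩⟩,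
      Multiplicative.ofAdd n), ?_⟩
    apply Prod.ext
    · apply Subtype.ext
      exact h1.symm
    · exact h2
  · rintro ⟨a, h⟩
    obtain ⟨γ, hγ, h3⟩ := mem_PG.1 a.1.2
    have h1 : p'.1.1 = a.1.1 p.1.1 := congrArg (fun x : PX => x.1.1) h
    have h2 : p'.2 = p.2 + (Multiplicative.toAdd a.2 : ℤ) := congrArg (fun x : PX => x.2) h
    apply Prod.ext
    · refine Quotient.sound (s := Bor.coreSetoid) ⟨toC γ, mem_Γ.2 ⟨γ, hγ, rfl⟩, ?_⟩
      rw [h1, h3]
    · exact (circle_eq_iff _ _).2 ⟨_, h2⟩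

theorem exists_inc {x : PX} (h : ∀ γ, ht γ x.1.1 ≤ 16) : ∃ p, inc p = x :=
  ⟨(⟨x.1.1, (core_iff _).2 h⟩, x.2), rfl⟩

theorem inc_ht (p : Bor.Core × ℝ) (γ : SL2Gi) : ht γ (inc p).1.1 ≤ 16 :=
  (core_iff p.1.1).1 p.1.2 γ

theorem tt_inc (p : Bor.Core × ℝ) : tt (inc p) ≤ 16 := by
  have := inc_ht p 1
  rwa [ht_one] at this

theorem exists_inc_smul (a : VG) (p : Bor.Core × ℝ) : ∃ p', inc p' = a • inc p := by
  apply exists_inc
  intro γ
  obtain ⟨g, hg, h⟩ := mem_PG.1 a.1.2
  rw [smul_fst, h, ht_smul]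
  exact inc_ht p _

theorem ht_mkX {p : ℂ × ℝ} {t : ℝ} (h1 : 1 ≤ t) (h2 : t ≤ 16) (γ : SL2Gi) :
    ht γ (mkX p t h1).1.1 ≤ 16 := by
  by_cases h : ((1 : SL2Gi)⁻¹ * γ) 1 0 = 0
  · rw [← ht_eq_of_same h, ht_one]
    exact h2
  · have h3 := ht_mul_le h (mkX p t h1).1.1
    rw [ht_one] at h3
    have h4 : (mkX p t h1).1.1.1.2 = t := rfl
    rw [h4] at h3
    have h5 := ht_pos γ (mkX p t h1).1.1
    nlinarith

/-- The point of the core with given coordinates. -/
noncomputable def coreOf (p : ℂ × ℝ) (t : ℝ) (h1 : 1 ≤ t) (h2 : t ≤ 16) : Bor.Core × ℝ :=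
  (⟨(mkX p t h1).1.1, (core_iff _).2 (ht_mkX h1 h2)⟩, p.2)

theorem inc_coreOf (p : ℂ × ℝ) (t : ℝ) (h1 : 1 ≤ t) (h2 : t ≤ 16) :
    inc (coreOf p t h1 h2) = mkX p t h1 := rfl

theorem continuous_coreOf {Z : Type*} [TopologicalSpace Z] {p : Z → ℂ × ℝ} {t : Z → ℝ}
    (h1 : ∀ z, 1 ≤ t z) (h2 : ∀ z, t z ≤ 16) (hp : Continuous p) (ht : Continuous t) :
    Continuous fun z => coreOf (p z) (t z) (h1 z) (h2 z) := by
  have h3 : Continuous (fun z => (mkX (p z) (t z) (h1 z)).1.1) := by
    have h4 : Continuous (fun x : PX => x.1.1) := by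
      have : Continuous (fun x : VP × ℝ => x.1.1) := by fun_prop
      exact this
    exact h4.comp (continuous_mkX h1 hp ht)
  refine Continuous.prodMk ?_ (continuous_snd.comp hp)
  exact h3.subtype_mk _

/-- Every point is in the core or a translate has height more than 16. -/
theorem core_or_high (x : PX) : (∃ p, inc p = x) ∨ ∃ a : VG, 16 < tt (a • x) := by
  by_cases h : ∀ γ, ht γ x.1.1 ≤ 16
  · exact Or.inl (exists_inc h)
  · right
    push Not at h
    obtain ⟨γ, hγ⟩ := h
    have hgl : Glued γ := by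
      by_contra hgl
      exact absurd (x.1.2 γ hgl) (not_le.2 hγ)
    obtain ⟨g, hg, hgγ⟩ := hgl
    have h1 : ht g x.1.1 = ht γ x.1.1 := ht_eq_of_same hgγ _
    refine ⟨(⟨MulAction.toPermHom SL2C H3 (toC g⁻¹), mem_PG.2 ⟨g⁻¹, inGam_inv hg, fun _ => rfl⟩⟩,
      1), ?_⟩
    have h2 : ht g x.1.1 = (toC g⁻¹ • x.1.1).1.2 := by
      unfold ht; rw [map_inv]
    change 16 < (toC g⁻¹ • x.1.1).1.2
    rw [← h2, h1]
    exact hγ

theorem exists_tt {γ : SL2Gi} {x : PX} (hγ : Glued γ) : ∃ a : VG, tt (a • x) = ht γ x.1.1 := by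
  obtain ⟨g, hg, hgγ⟩ := hγ
  have h1 : ht g x.1.1 = ht γ x.1.1 := ht_eq_of_same hgγ _
  refine ⟨(⟨MulAction.toPermHom SL2C H3 (toC g⁻¹), mem_PG.2 ⟨g⁻¹, inGam_inv hg, fun _ => rfl⟩⟩,
    1), ?_⟩
  have h2 : ht g x.1.1 = (toC g⁻¹ • x.1.1).1.2 := by
    unfold ht; rw [map_inv]
  change (toC g⁻¹ • x.1.1).1.2 = _
  rw [← h2, h1]

theorem exists_inc_col (L : (ℂ × ℝ) ≃ₗ[ℝ] (ℂ × ℝ)) {x : PX} (hx : 16 ≤ tt x) :
    ∃ p, inc p = col L x := by
  have h1 := tt_col L (x := x) (by linarith)
  have h2 : 64 / (tt x - 8) ≤ 8 := by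
    rw [div_le_iff₀ (by linarith)]
    linarith
  refine ⟨coreOf (L (zr x)) (8 + 64 / |tt x - 8|) ?_ ?_, rfl⟩
  · have : 0 ≤ 64 / |tt x - 8| := by positivity
    linarith
  · have h : |tt x - 8| = tt x - 8 := abs_of_pos (by linarith)
    rw [h]
    linarith

/-! ## Continuity of the inverse map -/

theorem continuous_of_pieces {M : Type*} [TopologicalSpace M] (inv : PX → M)
    (jA jB : Bor.Core × ℝ → M) (hjA : Continuous jA) (hjB : Continuous jB)
    (L : (ℂ × ℝ) ≃ₗ[ℝ] (ℂ × ℝ)) (h1 : ∀ p, inv (inc p) = jA p)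
    (h2 : ∀ (a : VG) x, inv (a • x) = inv x)
    (h3 : ∀ x p, 16 ≤ tt x → inc p = col L x → inv x = jB p) : Continuous inv := by
  -- the formula in the collar
  have hlow : ∀ x : PX, 1 ≤ min (max (tt x) 1) 16 := fun x => le_min (le_max_right _ _) (by norm_num)
  have hlow2 : ∀ x : PX, min (max (tt x) 1) 16 ≤ 16 := fun x => min_le_right _ _
  have hm : ∀ x : PX, 8 ≤ max (tt x) 16 - 8 := fun x => by
    have := le_max_right (tt x) 16
    linarith
  have hhigh : ∀ x : PX, 1 ≤ 8 + 64 / (max (tt x) 16 - 8) := fun x => by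
    have : 0 ≤ 64 / (max (tt x) 16 - 8) := div_nonneg (by norm_num) (by linarith [hm x])
    linarith
  have hhigh2 : ∀ x : PX, 8 + 64 / (max (tt x) 16 - 8) ≤ 16 := fun x => by
    have : 64 / (max (tt x) 16 - 8) ≤ 8 := by
      rw [div_le_iff₀ (by linarith [hm x])]
      linarith [hm x]
    linarith
  let kA : PX → M := fun x => jA (coreOf (zr x) _ (hlow x) (hlow2 x))
  let kB : PX → M := fun x => jB (coreOf (L (zr x)) _ (hhigh x) (hhigh2 x))
  have hkA : Continuous kA := by
    refine hjA.comp (continuous_coreOf _ _ continuous_zr ?_)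
    exact (continuous_tt.max continuous_const).min continuous_const
  have hkB : Continuous kB := by
    refine hjB.comp (continuous_coreOf _ _ ?_ ?_)
    · have : Continuous L := L.toLinearMap.continuous_of_finiteDimensional
      exact this.comp continuous_zr
    · refine continuous_const.add (continuous_const.div ?_ ?_)
      · exact (continuous_tt.max continuous_const).sub continuous_const
      · intro x
        have := hm x
        intro h
        linarith
  have eA : ∀ x : PX, 1 ≤ tt x → tt x ≤ 16 → inv x = kA x := by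
    intro x hx1 hx2
    have : x = inc (coreOf (zr x) _ (hlow x) (hlow2 x)) := by
      rw [inc_coreOf]
      apply extX
      · rw [zr_mkX]
      · rw [tt_mkX, max_eq_left hx1, min_eq_left hx2]
    conv_lhs => rw [this]
    rw [h1]
  have eB : ∀ x : PX, 16 ≤ tt x → inv x = kB x := by
    intro x hx
    refine h3 x _ hx ?_
    rw [inc_coreOf]
    apply extX
    · rw [zr_mkX, zr_col]
    · rw [tt_mkX, tt_col L (by linarith), max_eq_left hx]
  classical
  let k : PX → M := fun x => if tt x ≤ 16 then kA x else kB x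
  have hk : Continuous k := by
    refine Continuous.if_le hkA hkB continuous_tt continuous_const ?_
    intro x hx
    rw [← eA x (by linarith) hx.le, ← eB x hx.ge]
  have ek : ∀ x : PX, 1 ≤ tt x → inv x = k x := by
    intro x hx
    by_cases h : tt x ≤ 16
    · simp only [k, if_pos h]
      exact eA x hx h
    · simp only [k, if_neg h]
      exact eB x (not_le.1 h).le
  have hcol : ∀ x : PX, 1 < tt x → ContinuousAt inv x := by
    intro x hx
    refine hk.continuousAt.congr ?_
    have : ∀ᶠ y in 𝓝 x, 1 < tt y := continuousAt_const.eventually_lt continuous_tt.continuousAt hx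
    filter_upwards [this] with y hy
    exact (ek y hy.le).symm
  rw [continuous_iff_continuousAt]
  intro x
  by_cases hx : ∃ γ, Glued γ ∧ 1 < ht γ x.1.1
  · obtain ⟨γ, hγ, hx⟩ := hx
    obtain ⟨a, ha⟩ := exists_tt (x := x) hγ
    have h4 : ContinuousAt inv (a • x) := hcol _ (by rw [ha]; exact hx)
    have h5 : inv = inv ∘ (fun y => a • y) := funext fun y => (h2 a y).symm
    rw [h5]
    exact ContinuousAt.comp (f := fun y => a • y) h4 (continuous_const_smul a).continuousAt
  · push Not at hx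
    have h6 : {y : PX | ∀ γ, ht γ y.1.1 ≤ 16} ∈ 𝓝 x := by
      have h7 : Continuous (fun x : PX => x.1.1) := by
        have : Continuous (fun x : VP × ℝ => x.1.1) := by fun_prop
        exact this
      filter_upwards [h7.continuousAt.eventually (nhds_ht x.1.1)] with y hy γ
      by_cases hγ : Glued γ
      · linarith [hy γ, hx γ hγ]
      · exact y.1.2 γ hγ
    refine ContinuousOn.continuousAt ?_ h6
    rw [continuousOn_iff_continuous_domRestrict]
    have h8 : Continuous (fun y : {y : PX | ∀ γ, ht γ y.1.1 ≤ 16} =>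
        ((⟨y.1.1.1, (core_iff _).2 y.2⟩, y.1.2) : Bor.Core × ℝ)) := by
      refine Continuous.prodMk ?_ ?_
      · have h7 : Continuous (fun x : PX => x.1.1) := by
          have : Continuous (fun x : VP × ℝ => x.1.1) := by fun_prop
          exact this
        exact (h7.comp continuous_subtype_val).subtype_mk _
      · have h7 : Continuous (fun x : PX => x.2) := by
          have : Continuous (fun x : VP × ℝ => x.2) := by fun_prop
          exact this
        exact h7.comp continuous_subtype_val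
    have h9 : ({y : PX | ∀ γ, ht γ y.1.1 ≤ 16}).domRestrict inv = fun y => jA
        (((⟨y.1.1.1, (core_iff _).2 y.2⟩, y.1.2) : Bor.Core × ℝ)) := by
      funext y
      rw [← h1]
      rfl
    rw [h9]
    exact hjA.comp h8

/-! ## The homeomorphism -/

variable (e : LatIso)

/-- The chart of the first piece. -/
noncomputable def gX (x : Bor.Piece) : Q (sys e) :=
  qX (sys e) (inc (Function.surjInv Bor.isOpenQuotientMap_F0.surjective x))

theorem gX_F0 (p : Bor.Core × ℝ) : gX e (Bor.F0 p) = qX (sys e) (inc p) := by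
  obtain ⟨a, ha⟩ := F0_eq_iff.1 (Function.surjInv_eq Bor.isOpenQuotientMap_F0.surjective (Bor.F0 p))
  exact qX_eq_qX.2 ⟨a, ha⟩

theorem continuous_gX : Continuous (gX e) := by
  rw [Bor.isOpenQuotientMap_F0.isQuotientMap.continuous_iff]
  have : gX e ∘ Bor.F0 = fun p => qX (sys e) (inc p) := funext fun p => gX_F0 e p
  rw [this]
  exact continuous_qX.comp continuous_inc

/-- The chart of the second piece. -/
noncomputable def gY (x : Bor.Piece) : Q (sys e) :=
  qY (sys e) (inc (Function.surjInv Bor.isOpenQuotientMap_F0.surjective x))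

theorem gY_F0 (p : Bor.Core × ℝ) : gY e (Bor.F0 p) = qY (sys e) (inc p) := by
  obtain ⟨a, ha⟩ := F0_eq_iff.1 (Function.surjInv_eq Bor.isOpenQuotientMap_F0.surjective (Bor.F0 p))
  exact qY_eq_qY.2 ⟨a, ha⟩

theorem continuous_gY : Continuous (gY e) := by
  rw [Bor.isOpenQuotientMap_F0.isQuotientMap.continuous_iff]
  have : gY e ∘ Bor.F0 = fun p => qY (sys e) (inc p) := funext fun p => gY_F0 e p
  rw [this]
  exact continuous_qY.comp continuous_inc

theorem boundary_iff {p : ℂ × ℝ} {x : Bor.Piece} : Bor.IsBoundaryPoint D4 p x ↔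
    x = Bor.F0 (coreOf p 16 (by norm_num) le_rfl) := by
  have h0 : D4 • pt p.1 1 one_pos = pt (16 * p.1) 16 (by norm_num) := by
    apply Subtype.ext
    apply Prod.ext
    · rw [(D4_smul _).1]; rfl
    · rw [(D4_smul _).2]
      change (16 : ℝ) * 1 = 16
      norm_num
  constructor
  · rintro ⟨y, hy, rfl⟩
    have : y = (coreOf p 16 (by norm_num) le_rfl).1 := by
      apply Subtype.ext
      rw [hy, h0]
      rfl
    rw [this]
    rfl
  · rintro rfl
    exact ⟨(coreOf p 16 (by norm_num) le_rfl).1, h0.symm, rfl⟩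

/-- The map from the glued space. -/
noncomputable def fwd : e.toGluing.Space → Q (sys e) :=
  Quot.lift (Sum.elim (gX e) (gY e)) (by
    rintro _ _ ⟨p, v, w, hv, hw, rfl, rfl⟩
    have hv' := boundary_iff.1 hv
    have hw' := boundary_iff.1 hw
    subst hv' hw'
    change gX e (Bor.F0 _) = gY e (Bor.F0 _)
    rw [gX_F0, gY_F0]
    have hs : inc (coreOf p 16 (by norm_num) le_rfl) ∈ (sys e).φ.source := by
      change 8 < tt _
      rw [inc_coreOf, tt_mkX]
      norm_num
    rw [qX_eq_qY_source (sys e) hs]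
    congr 1
    change col e.L _ = _
    apply extX
    · rw [zr_col, inc_coreOf, inc_coreOf, zr_mkX, zr_mkX]
      rfl
    · rw [tt_col _ hs, inc_coreOf, inc_coreOf, tt_mkX, tt_mkX]
      norm_num)

theorem continuous_fwd : Continuous (fwd e) :=
  continuous_quot_lift _ (continuous_sum_dom.2 ⟨continuous_gX e, continuous_gY e⟩)

/-- The first piece in the glued space. -/
noncomputable def sX (x : Bor.Piece) : e.toGluing.Space := Quot.mk _ (.inl x)

/-- The second piece in the glued space. -/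
noncomputable def sY (x : Bor.Piece) : e.toGluing.Space := Quot.mk _ (.inr x)

theorem continuous_sX : Continuous (sX e) := continuous_quot_mk.comp continuous_inl

theorem continuous_sY : Continuous (sY e) := continuous_quot_mk.comp continuous_inr

theorem fwd_sX (p : Bor.Core × ℝ) : fwd e (sX e (Bor.F0 p)) = qX (sys e) (inc p) := gX_F0 e p

theorem fwd_sY (p : Bor.Core × ℝ) : fwd e (sY e (Bor.F0 p)) = qY (sys e) (inc p) := gY_F0 e p

theorem space_cases (x : e.toGluing.Space) : (∃ p, x = sX e (Bor.F0 p)) ∨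
    ∃ p, x = sY e (Bor.F0 p) := by
  obtain ⟨x, rfl⟩ := Quot.exists_rep x
  rcases x with x | x
  · obtain ⟨p, rfl⟩ := Bor.isOpenQuotientMap_F0.surjective x
    exact Or.inl ⟨p, rfl⟩
  · obtain ⟨p, rfl⟩ := Bor.isOpenQuotientMap_F0.surjective x
    exact Or.inr ⟨p, rfl⟩

theorem sX_eq_sY {p p' : Bor.Core × ℝ} (h : qX (sys e) (inc p) = qY (sys e) (inc p')) :
    sX e (Bor.F0 p) = sY e (Bor.F0 p') := by
  obtain ⟨a, b, h1, h2⟩ := qX_eq_qY.1 h
  obtain ⟨p1, hp1⟩ := exists_inc_smul a p
  obtain ⟨p2, hp2⟩ := exists_inc_smul b p'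
  rw [← hp1] at h1 h2
  rw [← hp2] at h2
  have e1 : Bor.F0 p = Bor.F0 p1 := F0_eq_iff.2 ⟨a, hp1⟩
  have e2 : Bor.F0 p' = Bor.F0 p2 := F0_eq_iff.2 ⟨b, hp2⟩
  rw [e1, e2]
  have h3 : 8 < tt (inc p1) := h1
  have h4 : col e.L (inc p1) = inc p2 := h2
  have h5 := tt_inc p1
  have h6 := tt_inc p2
  have h7 : tt (inc p2) = 8 + 64 / (tt (inc p1) - 8) := by rw [← h4, tt_col _ h3]
  have h8 : tt (inc p1) = 16 := by
    rw [h7] at h6
    have h9 : 64 / (tt (inc p1) - 8) ≤ 8 := by linarith
    rw [div_le_iff₀ (by linarith)] at h9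
    linarith
  have h10 : tt (inc p2) = 16 := by rw [h7, h8]; norm_num
  have h11 : p1 = coreOf (zr (inc p1)) 16 (by norm_num) le_rfl := by
    apply inc_injective
    apply extX
    · rw [inc_coreOf, zr_mkX]
    · rw [inc_coreOf, tt_mkX, h8]
  have h12 : p2 = coreOf (e.L (zr (inc p1))) 16 (by norm_num) le_rfl := by
    apply inc_injective
    apply extX
    · rw [inc_coreOf, zr_mkX, ← h4, zr_col]
    · rw [inc_coreOf, tt_mkX, h10]
  refine Quot.sound ⟨zr (inc p1), Bor.F0 p1, Bor.F0 p2, ?_, ?_, rfl, rfl⟩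
  · refine boundary_iff.2 ?_
    rw [← h11]
  · refine boundary_iff.2 ?_
    change _ = Bor.F0 (coreOf (e.L (zr (inc p1))) 16 (by norm_num) le_rfl)
    rw [← h12]

theorem fwd_bijective : Function.Bijective (fwd e) := by
  constructor
  · intro x y h
    rcases space_cases e x with ⟨p, rfl⟩ | ⟨p, rfl⟩ <;>
      rcases space_cases e y with ⟨p', rfl⟩ | ⟨p', rfl⟩
    · rw [fwd_sX, fwd_sX] at h
      rw [F0_eq_iff.2 (qX_eq_qX.1 h)]
    · rw [fwd_sX, fwd_sY] at h
      exact sX_eq_sY e h
    · rw [fwd_sX, fwd_sY] at h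
      exact (sX_eq_sY e h.symm).symm
    · rw [fwd_sY, fwd_sY] at h
      rw [F0_eq_iff.2 (qY_eq_qY.1 h)]
  · intro m
    rcases tot_cases (triv (sys e)) m with ⟨g, x, rfl⟩ | ⟨g, x, rfl⟩
    · rcases core_or_high x with ⟨p, rfl⟩ | ⟨a, ha⟩
      · exact ⟨sX e (Bor.F0 p), fwd_sX e p⟩
      · obtain ⟨p, hp⟩ := exists_inc_col e.L ha.le
        refine ⟨sY e (Bor.F0 p), ?_⟩
        rw [fwd_sY, hp]
        have hs : a • x ∈ (sys e).φ.source := by
          change 8 < tt (a • x)
          linarith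
        have h1 := qX_eq_qY_source (sys e) hs
        have h2 : qX (sys e) (a • x) = qX (sys e) x := (qX_eq_qX.2 ⟨a, rfl⟩).symm
        exact h1.symm.trans h2
    · rcases core_or_high x with ⟨p, rfl⟩ | ⟨a, ha⟩
      · exact ⟨sY e (Bor.F0 p), fwd_sY e p⟩
      · obtain ⟨p, hp⟩ := exists_inc_col e.L.symm ha.le
        refine ⟨sX e (Bor.F0 p), ?_⟩
        rw [fwd_sX, hp]
        have ha' : 8 < tt (a • x) := by linarith
        have hs : col e.L.symm (a • x) ∈ (sys e).φ.source := col_gt e.L.symm ha'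
        have h1 := qX_eq_qY_source (sys e) hs
        have h3 : (sys e).φ (col e.L.symm (a • x)) = a • x := col_col e.L.symm ha'
        rw [h3] at h1
        have h2 : qY (sys e) (a • x) = qY (sys e) x := (qY_eq_qY.2 ⟨a, rfl⟩).symm
        exact h1.trans h2

/-- The inverse map. -/
noncomputable def bwd : Q (sys e) → e.toGluing.Space :=
  (Equiv.ofBijective _ (fwd_bijective e)).symm

theorem bwd_fwd (x : e.toGluing.Space) : bwd e (fwd e x) = x :=
  (Equiv.ofBijective _ (fwd_bijective e)).symm_apply_apply x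

theorem continuous_bwd : Continuous (bwd e) := by
  have hX : Continuous (fun x => bwd e (qX (sys e) x)) := by
    refine continuous_of_pieces _ (fun p => sX e (Bor.F0 p)) (fun p => sY e (Bor.F0 p))
      ((continuous_sX e).comp Bor.isOpenQuotientMap_F0.continuous)
      ((continuous_sY e).comp Bor.isOpenQuotientMap_F0.continuous) e.L ?_ ?_ ?_
    · intro p
      rw [← fwd_sX, bwd_fwd]
    · intro a x
      have : qX (sys e) (a • x) = qX (sys e) x := (qX_eq_qX.2 ⟨a, rfl⟩).symm
      change bwd e (qX (sys e) (a • x)) = _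
      rw [this]
    · intro x p hx hp
      have hs : x ∈ (sys e).φ.source := by
        change 8 < tt x
        linarith
      have h1 : qX (sys e) x = qY (sys e) (inc p) := by
        rw [hp]
        exact qX_eq_qY_source (sys e) hs
      change bwd e (qX (sys e) x) = _
      rw [h1, ← fwd_sY, bwd_fwd]
  have hY : Continuous (fun x => bwd e (qY (sys e) x)) := by
    refine continuous_of_pieces _ (fun p => sY e (Bor.F0 p)) (fun p => sX e (Bor.F0 p))
      ((continuous_sY e).comp Bor.isOpenQuotientMap_F0.continuous)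
      ((continuous_sX e).comp Bor.isOpenQuotientMap_F0.continuous) e.L.symm ?_ ?_ ?_
    · intro p
      rw [← fwd_sY, bwd_fwd]
    · intro a x
      have : qY (sys e) (a • x) = qY (sys e) x := (qY_eq_qY.2 ⟨a, rfl⟩).symm
      change bwd e (qY (sys e) (a • x)) = _
      rw [this]
    · intro x p hx hp
      have hx' : 8 < tt x := by linarith
      have hs : col e.L.symm x ∈ (sys e).φ.source := col_gt e.L.symm hx'
      have h1 : qY (sys e) x = qX (sys e) (inc p) := by
        rw [hp, qX_eq_qY_source (sys e) hs]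
        have h3 : (sys e).φ (col e.L.symm x) = x := col_col e.L.symm hx'
        rw [h3]
      change bwd e (qY (sys e) x) = _
      rw [h1, ← fwd_sX, bwd_fwd]
  rw [continuous_def]
  intro W hW
  rw [GlueSys.isOpen_iff]
  constructor
  · intro g
    exact hW.preimage hX
  · intro g
    exact hW.preimage hY

/-- The glued space is the quotient of the gluing system. -/
noncomputable def homeo : e.toGluing.Space ≃ₜ Q (sys e) where
  toEquiv := Equiv.ofBijective _ (fwd_bijective e)
  continuous_toFun := continuous_fwd e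
  continuous_invFun := continuous_bwd e

end Model

end Pool.Agent.Work.MP_f0c219_gt
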